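import Pool.Agent.PnPoly.Poly

/-!
# Passage to polynomials
-/

open Finset Filter Topology Polynomial

namespace Pool.Agent.PnPoly

/-- A nonnegative integer sequence gives prime indices. -/
lemma manyPrimes_of {P : Polynomial ℚ} {y : ℝ} {K : ℕ} (hy : 0 ≤ y) {S : Finset ℕ}
    (hK : K ≤ S.card) (hS : ∀ n ∈ S, 2 ≤ n ∧ n ≤ ⌊y⌋₊ ∧ ∃ q : ℕ, q.Prime ∧
      (q : ℚ) = ((Nat.nth Nat.Prime (n - 1) : ℕ) : ℚ) + 2 * P.eval (n : ℚ)) :
    ManyPrimes P y K := by
  unfold ManyPrimes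
  refine hK.trans ?_
  rw [← Set.ncard_coe_finset]
  refine Set.ncard_le_ncard ?_ ?_
  · intro n hn
    obtain ⟨h1, h2, h3⟩ := hS n hn
    refine ⟨by omega, ?_, h3⟩
    exact (Nat.le_floor_iff hy).mp h2
  · refine (Set.finite_le_nat ⌊y⌋₊).subset fun n hn => ?_
    exact Nat.le_floor hn.2.1

/-- Assemble the coefficient vector. -/
def vec {e : ℕ} (t : (Fin e → ℕ) × ℕ × ℕ) : Fin (e + 1 + 1) → ℕ :=
  Fin.cons t.2.2 (Fin.cons t.2.1 t.1)

lemma vec_injective {e : ℕ} : Function.Injective (vec (e := e)) := by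
  rintro ⟨q, c1, c0⟩ ⟨q', c1', c0'⟩ h
  unfold vec at h
  simp only at h
  rw [Fin.cons_inj, Fin.cons_inj] at h
  obtain ⟨h1, h2, h3⟩ := h
  subst h1; subst h2; subst h3; rfl

lemma vec_sum {e : ℕ} (t : (Fin e → ℕ) × ℕ × ℕ) (n : ℕ) :
    pr n + 2 * (∑ k : Fin (e + 1 + 1), vec t k * n.choose k) = uu pr t.1 t.2.2 t.2.1 n := by
  unfold uu al Qv vec
  rw [Fin.sum_univ_succ, Fin.sum_univ_succ]
  simp only [Fin.cons_zero, Fin.cons_succ, Fin.val_zero, Nat.choose_zero_right, mul_one,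
    Fin.val_succ, zero_add, Nat.choose_one_right]
  ring

/-- Averages over boxes of coefficient vectors. -/
theorem box_average (e K : ℕ) {κ η : ℝ} (hκ : ∀ R, kap (e + 1) R ≤ κ) (hη0 : 0 ≤ η)
    (hη1 : η ≤ 1) (hη : η * κ < 1) :
    ∃ C : ℝ, 0 < C ∧ ∃ H0 : ℕ, ∀ H : ℕ, H0 ≤ H →
      η * (H:ℝ) ^ (e + 1 + 1) ≤ (({c : Fin (e + 1 + 1) → ℕ | (∀ k, 1 ≤ c k ∧ c k ≤ H) ∧
        Admissible (polyOf c) ∧ (polyOf c).natDegree = e + 1 ∧
        ManyPrimes (polyOf c) (C * Real.log H) K}.ncard : ℕ) : ℝ) := by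
  obtain ⟨C, hC, h⟩ := good_asymp e K hκ hη0 hη1 hη
  refine ⟨C, hC, ?_⟩
  rw [← eventually_atTop]
  filter_upwards [h 0, pr_eventually hC.le] with H hH hpr
  have h1 := hH pr (fun n hn _ => pr_odd hn) (fun n _ hn => by
    rw [pow_zero, mul_one]; exact_mod_cast hpr n hn)
  refine h1.trans ?_
  have hcard : (Good pr e H ⌊C * Real.log H⌋₊ K).card =
      ((Good pr e H ⌊C * Real.log H⌋₊ K).image vec).card :=
    (card_image_of_injective _ vec_injective).symm
  rw [hcard, ← Set.ncard_coe_finset]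
  have hlog : 0 ≤ C * Real.log H := mul_nonneg hC.le (Real.log_natCast_nonneg H)
  have hle := Set.ncard_le_ncard (s := (((Good pr e H ⌊C * Real.log H⌋₊ K).image vec : Finset _) :
      Set (Fin (e + 1 + 1) → ℕ))) (t := {c : Fin (e + 1 + 1) → ℕ | (∀ k, 1 ≤ c k ∧ c k ≤ H) ∧
        Admissible (polyOf c) ∧ (polyOf c).natDegree = e + 1 ∧
        ManyPrimes (polyOf c) (C * Real.log H) K}) ?_ ?_
  · exact_mod_cast hle
  · intro c hc
    rw [mem_coe, mem_image] at hc
    obtain ⟨t, ht, rfl⟩ := hc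
    unfold Good at ht
    rw [mem_filter, mem_T] at ht
    obtain ⟨⟨hq, h1, h0⟩, hK⟩ := ht
    unfold box at hq
    rw [Fintype.mem_piFinset] at hq
    have hrange : ∀ k, 1 ≤ vec t k ∧ vec t k ≤ H := by
      intro k
      unfold vec
      refine Fin.cases ?_ (fun k => ?_) k
      · simp only [Fin.cons_zero]; exact ⟨h0.1, h0.2⟩
      · simp only [Fin.cons_succ]
        refine Fin.cases ?_ (fun k => ?_) k
        · simp only [Fin.cons_zero]; exact ⟨h1.1, h1.2⟩
        · simp only [Fin.cons_succ]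
          have := mem_Icc.mp (hq k)
          exact this
    have hadm := polyOf_admissible (vec t) (fun k => (hrange k).1)
    refine ⟨hrange, hadm.1, hadm.2, manyPrimes_of hlog hK ?_⟩
    intro n hn
    rw [mem_filter, mem_Icc] at hn
    refine ⟨hn.1.1, hn.1.2, _, hn.2, ?_⟩
    rw [polyOf_eval_nat, ← vec_sum]
    push_cast
    rfl
  · refine Set.Finite.subset (Finset.finite_toSet (Fintype.piFinset fun _ => Icc 1 H))
      fun c hc => ?_
    rw [mem_coe, Fintype.mem_piFinset]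
    intro k
    exact mem_Icc.mpr (hc.1 k)

/-- Linear perturbations of a fixed polynomial. -/
theorem linear_average (Q : Polynomial ℚ) (hQ : ∀ m : ℤ, ∃ k : ℤ, Q.eval (m : ℚ) = (k : ℚ))
    (hlc : 0 ≤ Q.leadingCoeff) (K : ℕ) :
    ∃ C : ℝ, 0 < C ∧ ∃ H0 : ℕ, ∀ H : ℕ, H0 ≤ H →
      (3 / 4 : ℝ) * (H:ℝ) ^ 2 ≤ (({v : ℕ × ℕ | (1 ≤ v.1 ∧ v.1 ≤ H) ∧ (1 ≤ v.2 ∧ v.2 ≤ H) ∧
        Admissible (Q + (Polynomial.C (v.1 : ℚ) * Polynomial.X + Polynomial.C (v.2 : ℚ))) ∧
        ManyPrimes (Q + (Polynomial.C (v.1 : ℚ) * Polynomial.X + Polynomial.C (v.2 : ℚ)))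
          (C * Real.log H) K}.ncard : ℕ) : ℝ) := by
  classical
  choose Z hZ using hQ
  have hfin := finite_neg hlc
  set F : Finset ℕ := hfin.toFinset with hF
  obtain ⟨C, hC, h⟩ := good_asymp 0 (K + F.card) (κ := 133 / 100) (η := 3 / 4)
    (fun R => kap_le _ R) (by norm_num) (by norm_num) (by norm_num)
  refine ⟨C, hC, ?_⟩
  rw [← eventually_atTop]
  filter_upwards [h 2, pr_eventually hC.le, poly_eventually Q hC.le,
    tendsto_log_nat.eventually_ge_atTop 2] with H hH hpr hpoly hL2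
  set N := ⌊C * Real.log H⌋₊ with hN
  set β : ℕ → ℕ := fun n => if Q.eval (n : ℚ) < 0 then 1 else pr n + 2 * (Z n).toNat with hβ
  have hZn : ∀ n : ℕ, Q.eval (n : ℚ) = ((Z (n : ℤ) : ℤ) : ℚ) := by
    intro n
    have := hZ (n : ℤ)
    simpa using this
  have hZnat : ∀ n : ℕ, ¬ Q.eval (n : ℚ) < 0 → (((Z n).toNat : ℕ) : ℚ) = Q.eval (n : ℚ) := by
    intro n hn
    rw [hZn n] at hn ⊢
    have h0 : 0 ≤ Z n := by
      by_contra hneg
      push Not at hneg
      exact hn (by exact_mod_cast hneg)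
    have : (((Z n).toNat : ℕ) : ℤ) = Z n := Int.toNat_of_nonneg h0
    exact_mod_cast congrArg (fun z : ℤ => (z : ℚ)) this
  have h1 := hH β (fun n hn2 _ => by
      simp only [hβ]
      split_ifs
      · rfl
      · have := pr_odd hn2
        omega) (fun n _ hn => by
      have hH0 : (0:ℝ) ≤ H := Nat.cast_nonneg H
      simp only [hβ]
      have hL4 : (4:ℝ) ≤ Real.log H ^ 2 := by nlinarith
      have hH1 : (1:ℝ) ≤ H := by
        by_contra hlt
        push Not at hlt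
        have : H = 0 := by
          have : H < 1 := by exact_mod_cast hlt
          omega
        rw [this] at hL2
        simp at hL2
        linarith
      split_ifs with hneg
      · push_cast
        nlinarith
      · push_cast
        have h2 : (((Z n).toNat : ℕ) : ℝ) = ((Q.eval (n : ℚ) : ℚ) : ℝ) := by
          rw [← hZnat n hneg]; push_cast; rfl
        have h3 := hpoly n hn
        have h4 : (pr n : ℝ) ≤ H := by exact_mod_cast hpr n hn
        rw [h2]
        nlinarith)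
  have h1' : (3 / 4 : ℝ) * (H:ℝ) ^ 2 ≤ ((Good β 0 H N (K + F.card)).card : ℝ) := h1
  refine h1'.trans ?_
  have hlog : 0 ≤ C * Real.log H := mul_nonneg hC.le (Real.log_natCast_nonneg H)
  have hinj : Set.InjOn (fun t : (Fin 0 → ℕ) × ℕ × ℕ => t.2) (Good β 0 H N (K + F.card)) := by
    rintro ⟨q, c⟩ _ ⟨q', c'⟩ _ h
    have : q = q' := Subsingleton.elim _ _
    simp only at h
    rw [this, h]
  have hcard : (Good β 0 H N (K + F.card)).card =
      ((Good β 0 H N (K + F.card)).image (fun t => t.2)).card :=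
    (card_image_of_injOn hinj).symm
  rw [hcard, ← Set.ncard_coe_finset]
  have hle := Set.ncard_le_ncard (s := (((Good β 0 H N (K + F.card)).image (fun t => t.2) :
      Finset _) : Set (ℕ × ℕ))) (t := {v : ℕ × ℕ | (1 ≤ v.1 ∧ v.1 ≤ H) ∧ (1 ≤ v.2 ∧ v.2 ≤ H) ∧
        Admissible (Q + (Polynomial.C (v.1 : ℚ) * Polynomial.X + Polynomial.C (v.2 : ℚ))) ∧
        ManyPrimes (Q + (Polynomial.C (v.1 : ℚ) * Polynomial.X + Polynomial.C (v.2 : ℚ)))
          (C * Real.log H) K}) ?_ ?_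
  · exact_mod_cast hle
  · intro v hv
    rw [mem_coe, mem_image] at hv
    obtain ⟨t, ht, rfl⟩ := hv
    unfold Good at ht
    rw [mem_filter, mem_T] at ht
    obtain ⟨⟨-, ha, hb⟩, hK⟩ := ht
    refine ⟨⟨ha.1, ha.2⟩, ⟨hb.1, hb.2⟩, linear_admissible (fun m => ⟨Z m, hZ m⟩) hlc ha.1, ?_⟩
    refine manyPrimes_of hlog (S := ((Icc 2 N).filter
      (fun n => (uu β t.1 t.2.2 t.2.1 n).Prime)) \ F) ?_ ?_
    · have := Finset.le_card_sdiff F ((Icc 2 N).filter (fun n => (uu β t.1 t.2.2 t.2.1 n).Prime))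
      omega
    · intro n hn
      rw [Finset.mem_sdiff, mem_filter, mem_Icc] at hn
      obtain ⟨⟨⟨hn2, hnN⟩, hprime⟩, hnF⟩ := hn
      have hneg : ¬ Q.eval (n : ℚ) < 0 := by
        intro hlt
        exact hnF (hfin.mem_toFinset.mpr hlt)
      refine ⟨hn2, hnN, _, hprime, ?_⟩
      unfold uu al Qv
      simp only [hβ, if_neg hneg]
      push_cast
      rw [hZnat n hneg]
      simp only [univ_eq_empty, sum_empty, mul_zero, add_zero, eval_add, eval_mul, eval_C, eval_X]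
      unfold pr
      ring
  · refine Set.Finite.subset (Finset.finite_toSet (Icc 1 H ×ˢ Icc 1 H)) fun v hv => ?_
    rw [mem_coe, mem_product, mem_Icc, mem_Icc]
    exact ⟨hv.1, hv.2.1⟩

end Pool.Agent.PnPoly

namespace Pool.Agent.PnPoly

open Filter Topology

/-- The constant `κ_d`, the supremum over `R` of the products over the odd primes `l ≤ R` of
`1 + 1/((l-1) l^{⌊log_l d⌋+1})`. -/
noncomputable def kappa (d : ℕ) : ℝ := ⨆ R : ℕ, kap d R

lemma bddAbove_kap (d : ℕ) : BddAbove (Set.range fun R : ℕ => kap d R) :=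
  ⟨133 / 100, by rintro _ ⟨R, rfl⟩; exact kap_le d R⟩

lemma kap_le_kappa (d R : ℕ) : kap d R ≤ kappa d := le_ciSup (bddAbove_kap d) R

lemma kappa_le (d : ℕ) : kappa d ≤ 133 / 100 := ciSup_le fun R => kap_le d R

lemma one_le_kappa (d : ℕ) : 1 ≤ kappa d := by
  have h : kap d 0 = 1 := by
    unfold kap oddP
    simp
  rw [← h]
  exact kap_le_kappa d 0

lemma tendsto_kappa : Tendsto kappa atTop (𝓝 1) := by
  rw [Metric.tendsto_atTop]
  intro ε hε
  obtain ⟨d0, hd0⟩ := kap_tendsto (ε := ε / 2) (by positivity)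
  refine ⟨d0, fun d hd => ?_⟩
  have h1 : kappa d ≤ 1 + ε / 2 := ciSup_le fun R => hd0 d hd R
  have h2 := one_le_kappa d
  rw [Real.dist_eq, abs_lt]
  constructor <;> linarith

end Pool.Agent.PnPoly
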