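import Mathlib

/-!
# The mean value of the local factor
-/

open Finset Filter Topology

namespace Pool.Agent.PnPoly

/-- The least power of `l` exceeding `d` (for `l ≥ 2`). -/
def qq (d l : ℕ) : ℕ := l ^ (Nat.log l d + 1)

lemma lt_qq {d l : ℕ} (hl : 2 ≤ l) : d < qq d l := Nat.lt_pow_succ_log_self (by omega) d

lemma dvd_qq (d l : ℕ) : l ∣ qq d l := dvd_pow_self l (by omega)

lemma le_qq {d l : ℕ} (hl : 2 ≤ l) : l ≤ qq d l := Nat.le_of_dvd (by
  unfold qq; positivity) (dvd_qq d l)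

lemma qq_pos {d l : ℕ} (hl : 2 ≤ l) : 0 < qq d l := by unfold qq; positivity

/-- Odd primes up to `R`. -/
def oddP (R : ℕ) : Finset ℕ := (Icc 3 R).filter Nat.Prime

lemma mem_oddP {R l : ℕ} : l ∈ oddP R ↔ (3 ≤ l ∧ l ≤ R) ∧ l.Prime := by
  simp [oddP]

/-- The local factor. -/
noncomputable def G (d r : ℕ) : ℝ :=
  ∏ l ∈ (oddP r).filter (fun l => qq d l ∣ r), ((l : ℝ) / (l - 1))

lemma G_eq {d r R : ℕ} (hr : 0 < r) (hrR : r ≤ R) :
    G d r = ∏ l ∈ oddP R, (1 + if qq d l ∣ r then 1 / ((l : ℝ) - 1) else 0) := by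
  have h1 : ∏ l ∈ oddP R, (1 + if qq d l ∣ r then 1 / ((l : ℝ) - 1) else 0) =
      ∏ l ∈ (oddP R).filter (fun l => qq d l ∣ r), ((l : ℝ) / (l - 1)) := by
    rw [prod_filter]
    refine prod_congr rfl fun l hl => ?_
    rw [mem_oddP] at hl
    split_ifs with h
    · have : ((l:ℝ) - 1) ≠ 0 := by
        have : (3:ℝ) ≤ l := by exact_mod_cast hl.1.1
        linarith
      field_simp
      ring
    · simp
  rw [h1, G]
  congr 1
  ext l
  simp only [mem_filter, mem_oddP]
  constructor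
  · rintro ⟨⟨⟨a, b⟩, c⟩, e⟩
    exact ⟨⟨⟨a, b.trans hrR⟩, c⟩, e⟩
  · rintro ⟨⟨⟨a, b⟩, c⟩, e⟩
    exact ⟨⟨⟨a, Nat.le_of_dvd hr ((dvd_qq d l).trans e)⟩, c⟩, e⟩

lemma one_le_G (d r : ℕ) : 1 ≤ G d r := by
  unfold G
  refine Finset.one_le_prod fun l hl => ?_
  rw [mem_filter, mem_oddP] at hl
  have h3 : (3:ℝ) ≤ l := by exact_mod_cast hl.1.1.1
  rw [one_le_div (by linarith)]
  linarith

/-- The constant. -/
noncomputable def kap (d R : ℕ) : ℝ :=
  ∏ l ∈ oddP R, (1 + 1 / (((l : ℝ) - 1) * qq d l))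

lemma coprime_qq {d l l' : ℕ} (hl : l.Prime) (hl' : l'.Prime) (h : l ≠ l') :
    Nat.Coprime (qq d l) (qq d l') :=
  Nat.Coprime.pow _ _ ((Nat.coprime_primes hl hl').mpr h)

/-- Mean value of the local factor. -/
lemma sum_G_le (d R : ℕ) : ∑ r ∈ Ioc 0 R, G d r ≤ R * kap d R := by
  have h1 : ∑ r ∈ Ioc 0 R, G d r = ∑ r ∈ Ioc 0 R, ∑ t ∈ (oddP R).powerset,
      ∏ l ∈ t, (if qq d l ∣ r then 1 / ((l : ℝ) - 1) else 0) := by
    refine sum_congr rfl fun r hr => ?_
    rw [mem_Ioc] at hr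
    rw [G_eq hr.1 hr.2, prod_one_add]
  rw [h1, sum_comm, kap, prod_one_add, mul_sum]
  refine sum_le_sum fun t ht => ?_
  rw [mem_powerset] at ht
  have hprime : ∀ l ∈ t, l.Prime := fun l hl => (mem_oddP.mp (ht hl)).2
  have h3 : ∀ l ∈ t, (3:ℝ) ≤ l := fun l hl => by exact_mod_cast (mem_oddP.mp (ht hl)).1.1
  have hpos : ∀ l ∈ t, (0:ℝ) ≤ 1 / ((l:ℝ) - 1) := fun l hl => by
    have := h3 l hl
    exact div_nonneg zero_le_one (by linarith)
  have h2 : ∀ r ∈ Ioc 0 R, ∏ l ∈ t, (if qq d l ∣ r then 1 / ((l : ℝ) - 1) else 0) ≤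
      if (∏ l ∈ t, qq d l) ∣ r then ∏ l ∈ t, (1 / ((l : ℝ) - 1)) else 0 := by
    intro r _
    split_ifs with h
    · refine prod_le_prod (fun l hl => ?_) fun l hl => ?_
      · split_ifs
        · exact hpos l hl
        · exact le_rfl
      · split_ifs
        · exact le_rfl
        · exact hpos l hl
    · refine le_of_eq ?_
      have : ∃ l ∈ t, ¬ qq d l ∣ r := by
        by_contra hcon
        push Not at hcon
        apply h
        refine Finset.prod_dvd_of_isRelPrime ?_ hcon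
        intro a ha b hb hab
        exact Nat.coprime_iff_isRelPrime.mp (coprime_qq (hprime a ha) (hprime b hb) hab)
      obtain ⟨l, hl, hnd⟩ := this
      exact prod_eq_zero hl (by rw [if_neg hnd])
  refine (sum_le_sum h2).trans ?_
  rw [← sum_filter, sum_const, Nat.Ioc_filter_dvd_card_eq_div, nsmul_eq_mul]
  have hqpos : (0:ℝ) < ∏ l ∈ t, (qq d l : ℝ) := prod_pos fun l hl => by
    exact_mod_cast qq_pos (hprime l hl).two_le
  have h4 : ((R / (∏ l ∈ t, qq d l) : ℕ) : ℝ) ≤ R / ∏ l ∈ t, (qq d l : ℝ) := by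
    have := @Nat.cast_div_le ℝ _ _ _ R (∏ l ∈ t, qq d l)
    push_cast at this
    exact this
  calc ((R / (∏ l ∈ t, qq d l) : ℕ) : ℝ) * ∏ l ∈ t, (1 / ((l : ℝ) - 1))
      ≤ (R / ∏ l ∈ t, (qq d l : ℝ)) * ∏ l ∈ t, (1 / ((l : ℝ) - 1)) :=
        mul_le_mul_of_nonneg_right h4 (prod_nonneg hpos)
    _ = R * ∏ l ∈ t, (1 / (((l : ℝ) - 1) * qq d l)) := by
        rw [div_mul_eq_mul_div, mul_div_assoc, ← prod_div_distrib]
        congr 1
        refine prod_congr rfl fun l _ => ?_
        rw [div_div]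

lemma prod_one_add_le_exp {s : Finset ℕ} {f : ℕ → ℝ} (hf : ∀ i ∈ s, 0 ≤ f i) :
    ∏ i ∈ s, (1 + f i) ≤ Real.exp (∑ i ∈ s, f i) := by
  rw [Real.exp_sum]
  refine prod_le_prod (fun i hi => by have := hf i hi; linarith) fun i _ => ?_
  rw [add_comm]; exact Real.add_one_le_exp _

lemma kap_pos (d R : ℕ) : 0 < kap d R := by
  unfold kap
  refine prod_pos fun l hl => ?_
  have h3 : (3:ℝ) ≤ l := by exact_mod_cast (mem_oddP.mp hl).1.1
  have : (0:ℝ) < qq d l := by exact_mod_cast qq_pos (by have := (mem_oddP.mp hl).1.1; omega)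
  have : 0 ≤ 1 / (((l : ℝ) - 1) * qq d l) := by
    apply div_nonneg zero_le_one
    apply mul_nonneg <;> linarith
  linarith

lemma sum_odd_tail (R : ℕ) :
    ∑ k ∈ (Icc 11 R).filter (fun k => k % 2 = 1), 1 / (((k : ℝ) - 1) * k) ≤ 1 / 18 := by
  have key : ∀ j : ℕ, ∑ k ∈ (Icc 11 (10 + 2 * j)).filter (fun k => k % 2 = 1),
      1 / (((k : ℝ) - 1) * k) ≤ 1 / 18 - 1 / (2 * (9 + 2 * j)) := by
    intro j
    induction j with
    | zero => simp; norm_num
    | succ j ih =>
      have hset : (Icc 11 (10 + 2 * (j + 1))).filter (fun k => k % 2 = 1) =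
          insert (11 + 2 * j) ((Icc 11 (10 + 2 * j)).filter (fun k => k % 2 = 1)) := by
        ext k
        simp only [mem_filter, mem_Icc, mem_insert]
        omega
      rw [hset, sum_insert (by simp)]
      have h1 : 1 / ((((11 + 2 * j : ℕ) : ℝ) - 1) * ((11 + 2 * j : ℕ) : ℝ)) ≤
          1 / (2 * (9 + 2 * (j:ℝ))) - 1 / (2 * (9 + 2 * ((j + 1 : ℕ) : ℝ))) := by
        push_cast
        have h0 : (0:ℝ) ≤ j := Nat.cast_nonneg j
        rw [div_sub_div _ _ (by positivity) (by positivity), div_le_div_iff₀ (by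
          apply mul_pos <;> linarith) (by positivity)]
        nlinarith
      linarith
  have hsub : (Icc 11 R).filter (fun k => k % 2 = 1) ⊆
      (Icc 11 (10 + 2 * R)).filter (fun k => k % 2 = 1) := by
    intro k
    simp only [mem_filter, mem_Icc]
    omega
  have h2 := sum_le_sum_of_subset_of_nonneg hsub (f := fun k : ℕ => 1 / (((k : ℝ) - 1) * k))
    (fun k hk _ => by
      simp only [mem_filter, mem_Icc] at hk
      have : (11:ℝ) ≤ k := by exact_mod_cast hk.1.1
      apply div_nonneg zero_le_one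
      apply mul_nonneg <;> linarith)
  have h3 := key R
  have h4 : (0:ℝ) ≤ 1 / (2 * (9 + 2 * (R:ℝ))) := by positivity
  linarith

/-- A numerical bound valid for every `d`. -/
lemma kap_le (d R : ℕ) : kap d R ≤ 133 / 100 := by
  have h0 : ∀ l ∈ oddP R, 1 / (((l : ℝ) - 1) * qq d l) ≤ 1 / (((l : ℝ) - 1) * l) := by
    intro l hl
    have h3 : (3:ℝ) ≤ l := by exact_mod_cast (mem_oddP.mp hl).1.1
    have h2 : 2 ≤ l := by have := (mem_oddP.mp hl).1.1; omega
    have hq : (l:ℝ) ≤ qq d l := by exact_mod_cast le_qq h2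
    apply one_div_le_one_div_of_le
    · apply mul_pos <;> linarith
    · apply mul_le_mul_of_nonneg_left hq; linarith
  have h1 : kap d R ≤ ∏ l ∈ oddP R, (1 + 1 / (((l : ℝ) - 1) * l)) := by
    unfold kap
    refine prod_le_prod (fun l hl => ?_) fun l hl => by linarith [h0 l hl]
    have h3 : (3:ℝ) ≤ l := by exact_mod_cast (mem_oddP.mp hl).1.1
    have : 0 ≤ 1 / (((l : ℝ) - 1) * qq d l) := by
      apply div_nonneg zero_le_one
      apply mul_nonneg
      · linarith
      · positivity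
    linarith
  refine h1.trans ?_
  have hone : ∀ l : ℕ, 3 ≤ l → 1 ≤ 1 + 1 / (((l : ℝ) - 1) * l) := by
    intro l hl
    have h3 : (3:ℝ) ≤ l := by exact_mod_cast hl
    have : 0 ≤ 1 / (((l : ℝ) - 1) * l) := by
      apply div_nonneg zero_le_one
      apply mul_nonneg <;> linarith
    linarith
  have hsub : oddP R ⊆ ({3, 5, 7} : Finset ℕ) ∪ (Icc 11 R).filter (fun k => k % 2 = 1) := by
    intro l hl
    rw [mem_oddP] at hl
    obtain ⟨⟨h3, hR⟩, hp⟩ := hl
    have hodd : l % 2 = 1 := by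
      rcases hp.eq_two_or_odd with h | h
      · omega
      · exact h
    simp only [mem_union, mem_insert, mem_singleton, mem_filter, mem_Icc]
    by_cases h9 : l = 9
    · subst h9; exact absurd hp (by norm_num)
    · omega
  have h2 : ∏ l ∈ oddP R, (1 + 1 / (((l : ℝ) - 1) * l)) ≤
      ∏ l ∈ ({3, 5, 7} : Finset ℕ) ∪ (Icc 11 R).filter (fun k => k % 2 = 1),
        (1 + 1 / (((l : ℝ) - 1) * l)) := by
    refine prod_le_prod_of_subset_of_one_le hsub (fun l hl => ?_) fun l hl _ => ?_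
    · have := hone l (mem_oddP.mp hl).1.1
      linarith
    · exact hone l (by
        simp only [mem_union, mem_insert, mem_singleton, mem_filter, mem_Icc] at hl; omega)
  refine h2.trans ?_
  rw [prod_union (by
    rw [disjoint_left]; intro a ha hb
    simp only [mem_insert, mem_singleton, mem_filter, mem_Icc] at ha hb; omega)]
  have h3 : ∏ l ∈ ({3, 5, 7} : Finset ℕ), (1 + 1 / (((l : ℝ) - 1) * l)) = 7/6 * (21/20) * (43/42) := by
    rw [prod_insert (by simp), prod_insert (by simp), prod_singleton]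
    norm_num
  have h4 : ∏ l ∈ (Icc 11 R).filter (fun k => k % 2 = 1), (1 + 1 / (((l : ℝ) - 1) * l)) ≤
      18 / 17 := by
    refine (prod_one_add_le_exp fun l hl => ?_).trans ?_
    · simp only [mem_filter, mem_Icc] at hl
      have : (11:ℝ) ≤ l := by exact_mod_cast hl.1.1
      apply div_nonneg zero_le_one
      apply mul_nonneg <;> linarith
    · have h5 := sum_odd_tail R
      have h6 : Real.exp (∑ k ∈ (Icc 11 R).filter (fun k => k % 2 = 1),
          1 / (((k : ℝ) - 1) * k)) ≤ Real.exp (1/18) := Real.exp_le_exp.mpr h5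
      have h7 : Real.exp (1/18) ≤ 18 / 17 := by
        have h8 := Real.one_sub_le_exp_neg (1/18)
        rw [Real.exp_neg] at h8
        have h9 : 0 < Real.exp (1/18) := Real.exp_pos _
        have h10 : (17/18 : ℝ) * Real.exp (1/18) ≤ 1 := by
          have := mul_le_mul_of_nonneg_right h8 h9.le
          rw [inv_mul_cancel₀ h9.ne'] at this
          linarith
        linarith
      exact h6.trans h7
  rw [h3]
  nlinarith [h4]

/-- The constant tends to one, uniformly in `R`. -/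
lemma kap_tendsto {ε : ℝ} (hε : 0 < ε) : ∃ d0 : ℕ, ∀ d, d0 ≤ d → ∀ R, kap d R ≤ 1 + ε := by
  have hsum : Summable (fun k : ℕ => 1 / (k:ℝ) ^ (3/2 : ℝ)) :=
    Real.summable_one_div_nat_rpow.mpr (by norm_num)
  set S : ℝ := ∑' k : ℕ, 1 / (k:ℝ) ^ (3/2 : ℝ) with hS
  have hS0 : 0 ≤ S := tsum_nonneg fun k => by positivity
  have hbound : ∀ d R : ℕ, kap d R ≤ Real.exp (2 * S / Real.sqrt (d + 1)) := by
    intro d R
    unfold kap
    refine (prod_one_add_le_exp fun l hl => ?_).trans (Real.exp_le_exp.mpr ?_)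
    · have h3 : (3:ℝ) ≤ l := by exact_mod_cast (mem_oddP.mp hl).1.1
      apply div_nonneg zero_le_one
      apply mul_nonneg
      · linarith
      · positivity
    · have hterm : ∀ l ∈ oddP R, 1 / (((l : ℝ) - 1) * qq d l) ≤
          (2 / Real.sqrt (d + 1)) * (1 / (l:ℝ) ^ (3/2 : ℝ)) := by
        intro l hl
        have h3 : (3:ℝ) ≤ l := by exact_mod_cast (mem_oddP.mp hl).1.1
        have h2 : 2 ≤ l := by have := (mem_oddP.mp hl).1.1; omega
        have hq1 : (l:ℝ) ≤ qq d l := by exact_mod_cast le_qq h2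
        have hq2 : (d:ℝ) + 1 ≤ qq d l := by exact_mod_cast lt_qq h2
        have hqpos : (0:ℝ) < qq d l := by linarith
        have hsq : Real.sqrt l * Real.sqrt (d + 1) ≤ qq d l := by
          calc Real.sqrt l * Real.sqrt (d + 1) ≤ Real.sqrt (qq d l) * Real.sqrt (qq d l) := by
                gcongr
            _ = qq d l := Real.mul_self_sqrt hqpos.le
        have hlpow : (l:ℝ) ^ (3/2 : ℝ) = l * Real.sqrt l := by
          rw [Real.sqrt_eq_rpow, ← Real.rpow_one_add' (by linarith) (by norm_num)]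
          norm_num
        have hsl : 0 < Real.sqrt l := Real.sqrt_pos.mpr (by linarith)
        have hsd : 0 < Real.sqrt ((d:ℝ) + 1) := Real.sqrt_pos.mpr (by positivity)
        rw [hlpow, div_mul_div_comm, div_le_div_iff₀ (by
          apply mul_pos <;> linarith) (by positivity)]
        have h5 : (l:ℝ) / 2 * (Real.sqrt l * Real.sqrt (d + 1)) ≤ ((l:ℝ) - 1) * qq d l := by
          apply mul_le_mul _ hsq (by positivity) (by linarith)
          linarith
        nlinarith
      refine (sum_le_sum hterm).trans ?_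
      rw [← mul_sum]
      have h6 : ∑ l ∈ oddP R, 1 / (l:ℝ) ^ (3/2 : ℝ) ≤ S :=
        hsum.sum_le_tsum _ fun k _ => by positivity
      have hsd : 0 < Real.sqrt ((d:ℝ) + 1) := Real.sqrt_pos.mpr (by positivity)
      calc 2 / Real.sqrt (d + 1) * ∑ l ∈ oddP R, 1 / (l:ℝ) ^ (3/2 : ℝ)
          ≤ 2 / Real.sqrt (d + 1) * S := by gcongr
        _ = _ := by ring
  have hlim : Tendsto (fun d : ℕ => Real.exp (2 * S / Real.sqrt (d + 1))) atTop (𝓝 1) := by
    rw [← Real.exp_zero]
    refine (Real.continuous_exp.tendsto 0).comp ?_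
    refine Tendsto.div_atTop tendsto_const_nhds ?_
    refine Real.tendsto_sqrt_atTop.comp ?_
    exact tendsto_atTop_add_const_right _ _ tendsto_natCast_atTop_atTop
  have hev := hlim.eventually (gt_mem_nhds (show (1:ℝ) < 1 + ε by linarith))
  obtain ⟨d0, hd0⟩ := eventually_atTop.mp hev
  exact ⟨d0, fun d hd R => (hbound d R).trans (hd0 d hd).le⟩

end Pool.Agent.PnPoly
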