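import Pool.Agent.PnPoly.Gsum

/-!
# Local densities: binomial digits and equidistribution
-/

open Finset

namespace Pool.Agent.PnPoly

/-- Lucas: the binomial coefficient `n choose l^j` is the `j`-th digit mod `l`. -/
lemma choose_pow_cast {l : ℕ} (hl : l.Prime) (j n : ℕ) :
    ((n.choose (l ^ j) : ℕ) : ZMod l) = ((n / l ^ j : ℕ) : ZMod l) := by
  have : Fact l.Prime := ⟨hl⟩
  induction j generalizing n with
  | zero => simp
  | succ j ih =>
    have h1 : n.choose (l ^ (j+1)) ≡ (n % l).choose (l ^ (j+1) % l) * (n / l).choose (l ^ (j+1) / l)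
        [MOD l] := Choose.choose_modEq_choose_mod_mul_choose_div_nat
    have h2 : l ^ (j+1) % l = 0 := by
      rw [pow_succ]; exact Nat.mul_mod_left _ _
    have h3 : l ^ (j+1) / l = l ^ j := by
      rw [pow_succ]; exact Nat.mul_div_cancel _ hl.pos
    rw [h2, h3, Nat.choose_zero_right, one_mul] at h1
    rw [(ZMod.natCast_eq_natCast_iff _ _ _).mpr h1, ih, Nat.div_div_eq_div_mul]
    congr 2
    rw [pow_succ]; ring

/-- A free prime has a binomial coefficient of index in `[2,d]` separating `m` and `m+r`. -/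
lemma exists_choose_ne {l d m r : ℕ} (hl : l.Prime) (hr : 0 < r) (hlr : l ∣ r)
    (hq : ¬ qq d l ∣ r) : ∃ k, 2 ≤ k ∧ k ≤ d ∧
      (((m + r).choose k : ℕ) : ZMod l) ≠ ((m.choose k : ℕ) : ZMod l) := by
  have : Fact l.Prime := ⟨hl⟩
  set j := padicValNat l r with hj
  have hdvd : l ^ j ∣ r := pow_padicValNat_dvd
  have hnd : ¬ l ^ (j + 1) ∣ r := pow_succ_padicValNat_not_dvd hr.ne'
  have hj1 : 1 ≤ j := one_le_padicValNat_of_dvd hr.ne' hlr
  have hjs : j < Nat.log l d + 1 := by
    by_contra hcon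
    push Not at hcon
    exact hq ((pow_dvd_pow l hcon).trans hdvd)
  have hd0 : d ≠ 0 := by
    rintro rfl
    simp at hjs
    omega
  have hle : l ^ j ≤ d := Nat.pow_le_of_le_log hd0 (by omega)
  refine ⟨l ^ j, ?_, hle, ?_⟩
  · calc 2 ≤ l := hl.two_le
      _ = l ^ 1 := (pow_one l).symm
      _ ≤ l ^ j := Nat.pow_le_pow_right hl.pos hj1
  · rw [choose_pow_cast hl, choose_pow_cast hl]
    obtain ⟨t, ht⟩ := hdvd
    have hpos : 0 < l ^ j := pow_pos hl.pos j
    have h1 : (m + r) / l ^ j = m / l ^ j + t := by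
      rw [ht, Nat.add_mul_div_left _ _ hpos]
    rw [h1]
    push_cast
    intro h
    have h2 : (t : ZMod l) = 0 := by simpa using h
    rw [ZMod.natCast_eq_zero_iff] at h2
    apply hnd
    rw [ht, pow_succ]
    exact Nat.mul_dvd_mul_left _ h2

/-- The set of free primes. -/
def freeP (d r : ℕ) : Finset ℕ := (oddP r).filter (fun l => l ∣ r ∧ ¬ qq d l ∣ r)

/-- The product of the free primes. -/
def Lf (d r : ℕ) : ℕ := ∏ l ∈ freeP d r, l

lemma mem_freeP {d r l : ℕ} : l ∈ freeP d r ↔ ((3 ≤ l ∧ l ≤ r) ∧ l.Prime) ∧ l ∣ r ∧ ¬ qq d l ∣ r := by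
  rw [freeP, mem_filter, mem_oddP]

lemma Lf_pos (d r : ℕ) : 0 < Lf d r :=
  prod_pos fun l hl => (mem_freeP.mp hl).1.2.pos

lemma Lf_dvd (d r : ℕ) : Lf d r ∣ r := by
  refine Finset.prod_dvd_of_isRelPrime ?_ fun l hl => (mem_freeP.mp hl).2.1
  intro a ha b hb hab
  exact Nat.coprime_iff_isRelPrime.mp
    ((Nat.coprime_primes (mem_freeP.mp ha).1.2 (mem_freeP.mp hb).1.2).mpr hab)

lemma primeFactors_Lf (d r : ℕ) : (Lf d r).primeFactors = freeP d r := by
  unfold Lf
  rw [Nat.primeFactors_prod]
  intro l hl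
  exact (mem_freeP.mp hl).1.2

/-- The linear form takes the value one. -/
lemma exists_linear_one (e m r : ℕ) (hr : 0 < r) :
    ∃ v : Fin e → ZMod (Lf (e + 1) r),
      ∑ i, v i * ((2 * (((m + r).choose (i + 2) : ℕ) : ZMod (Lf (e + 1) r)) -
        2 * ((m.choose (i + 2) : ℕ) : ZMod (Lf (e + 1) r)))) = 1 := by
  set L := Lf (e + 1) r with hL
  set a : Fin e → ZMod L := fun i => 2 * (((m + r).choose (i + 2) : ℕ) : ZMod L) -
        2 * ((m.choose (i + 2) : ℕ) : ZMod L) with ha
  have htop : Ideal.span (Set.range a) = ⊤ := by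
    by_contra hne
    obtain ⟨M, hM, hle⟩ := Ideal.exists_le_maximal _ hne
    have hprod : (∏ l ∈ freeP (e + 1) r, ((l : ℕ) : ZMod L)) ∈ M := by
      have : (∏ l ∈ freeP (e + 1) r, ((l : ℕ) : ZMod L)) = ((L : ℕ) : ZMod L) := by
        rw [hL, Lf]; push_cast; rfl
      rw [this, ZMod.natCast_self]
      exact M.zero_mem
    have hMp : M.IsPrime := hM.isPrime
    obtain ⟨l, hl, hlM⟩ := (hMp.prod_mem_iff).mp hprod
    obtain ⟨⟨⟨h3, -⟩, hlp⟩, hlr, hqr⟩ := mem_freeP.mp hl
    obtain ⟨k, hk2, hkd, hkne⟩ := exists_choose_ne (m := m) hlp hr hlr hqr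
    have hke : k - 2 < e := by omega
    have haM : a ⟨k - 2, hke⟩ ∈ M := hle (Ideal.subset_span ⟨_, rfl⟩)
    have hak : a ⟨k - 2, hke⟩ = (((2 * ((m + r).choose k : ℤ) - 2 * (m.choose k : ℤ)) : ℤ) : ZMod L) := by
      simp only [ha]
      have : k - 2 + 2 = k := by omega
      rw [this]; push_cast; rfl
    have hcop : IsCoprime (l : ℤ) (2 * ((m + r).choose k : ℤ) - 2 * (m.choose k : ℤ)) := by
      have hlpZ : Prime (l : ℤ) := Nat.prime_iff_prime_int.mp hlp
      have hnd : ¬ (l : ℤ) ∣ 2 * ((m + r).choose k : ℤ) - 2 * (m.choose k : ℤ) := by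
        intro hd
        have h5 : (2 * ((m + r).choose k : ℤ) - 2 * (m.choose k : ℤ)) =
            2 * (((m + r).choose k : ℤ) - (m.choose k : ℤ)) := by ring
        rw [h5] at hd
        rcases hlpZ.dvd_or_dvd hd with h | h
        · have : l ∣ 2 := by exact_mod_cast h
          have := Nat.le_of_dvd (by norm_num) this
          omega
        · apply hkne
          have h6 : ((((m + r).choose k : ℤ) - (m.choose k : ℤ) : ℤ) : ZMod l) = 0 :=
            (ZMod.intCast_zmod_eq_zero_iff_dvd _ _).mpr h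
          push_cast at h6
          exact sub_eq_zero.mp h6
      exact (Irreducible.coprime_iff_not_dvd hlpZ.irreducible).mpr hnd
    obtain ⟨u, v, huv⟩ := hcop
    have h1 : (1 : ZMod L) ∈ M := by
      have h7 : ((u * l + v * (2 * ((m + r).choose k : ℤ) - 2 * (m.choose k : ℤ)) : ℤ) : ZMod L) =
          1 := by rw [huv]; simp
      rw [← h7]
      push_cast
      refine M.add_mem (M.mul_mem_left _ hlM) (M.mul_mem_left _ ?_)
      rw [hak] at haM
      push_cast at haM
      exact haM
    exact hM.ne_top ((Ideal.eq_top_iff_one M).mpr h1)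
  have h1 : (1 : ZMod L) ∈ Ideal.span (Set.range a) := by rw [htop]; trivial
  exact (Ideal.mem_span_range_iff_exists_fun).mp h1

/-- Equidistribution: the number of vectors with unit value. -/
lemma card_unit_vectors {L : ℕ} [NeZero L] {e : ℕ} (a : Fin e → ZMod L)
    (h1 : ∃ v : Fin e → ZMod L, ∑ i, v i * a i = 1) (t : ZMod L) :
    L * (univ.filter (fun v : Fin e → ZMod L => IsUnit (t + ∑ i, v i * a i))).card =
      L ^ e * L.totient := by
  classical
  obtain ⟨v0, hv0⟩ := h1
  have hshift : ∀ y : ZMod L,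
      (univ.filter (fun v : Fin e → ZMod L => IsUnit (y + (t + ∑ i, v i * a i)))).card =
      (univ.filter (fun v : Fin e → ZMod L => IsUnit (t + ∑ i, v i * a i))).card := by
    intro y
    refine card_bij (fun v _ => v + y • v0) ?_ ?_ ?_
    · intro v hv
      simp only [mem_filter, mem_univ, true_and] at hv ⊢
      convert hv using 1
      simp only [Pi.add_apply, Pi.smul_apply, smul_eq_mul, add_mul, sum_add_distrib]
      have : ∑ i, y * v0 i * a i = y := by
        calc ∑ i, y * v0 i * a i = y * ∑ i, v0 i * a i := by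
              rw [mul_sum]; exact sum_congr rfl fun i _ => by ring
          _ = y := by rw [hv0, mul_one]
      rw [this]; ring
    · intro v _ v' _ h
      exact add_right_cancel h
    · intro v hv
      refine ⟨v - y • v0, ?_, by simp⟩
      simp only [mem_filter, mem_univ, true_and] at hv ⊢
      convert hv using 1
      simp only [Pi.sub_apply, Pi.smul_apply, smul_eq_mul, sub_mul, sum_sub_distrib]
      have : ∑ i, y * v0 i * a i = y := by
        calc ∑ i, y * v0 i * a i = y * ∑ i, v0 i * a i := by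
              rw [mul_sum]; exact sum_congr rfl fun i _ => by ring
          _ = y := by rw [hv0, mul_one]
      rw [this]; ring
  have hsum1 : ∑ y : ZMod L,
      (univ.filter (fun v : Fin e → ZMod L => IsUnit (y + (t + ∑ i, v i * a i)))).card =
      L * (univ.filter (fun v : Fin e → ZMod L => IsUnit (t + ∑ i, v i * a i))).card := by
    rw [sum_congr rfl fun y _ => hshift y, sum_const, card_univ, ZMod.card, smul_eq_mul]
  rw [← hsum1]
  have hunits : (univ.filter (fun y : ZMod L => IsUnit y)).card = L.totient := by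
    rw [← ZMod.card_units_eq_totient, ← card_univ]
    symm
    refine card_bij (fun u _ => (u : ZMod L)) ?_ ?_ ?_
    · intro u _
      simp
    · intro u _ v _ h
      exact Units.ext h
    · intro b hb
      rw [mem_filter] at hb
      obtain ⟨u, hu⟩ := hb.2
      exact ⟨u, mem_univ _, hu⟩
  have hfib : ∀ s : ZMod L, (univ.filter (fun y : ZMod L => IsUnit (y + s))).card = L.totient := by
    intro s
    rw [← hunits]
    refine card_bij (fun y _ => y + s) ?_ ?_ ?_
    · intro y hy; simpa using hy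
    · intro y _ y' _ h; exact add_right_cancel h
    · intro y hy
      exact ⟨y - s, by simpa using hy, by simp⟩
  calc ∑ y : ZMod L,
      (univ.filter (fun v : Fin e → ZMod L => IsUnit (y + (t + ∑ i, v i * a i)))).card
      = ∑ y : ZMod L, ∑ v : Fin e → ZMod L, (if IsUnit (y + (t + ∑ i, v i * a i)) then 1 else 0) := by
        refine sum_congr rfl fun y _ => ?_
        rw [card_filter]
    _ = ∑ v : Fin e → ZMod L, ∑ y : ZMod L, (if IsUnit (y + (t + ∑ i, v i * a i)) then 1 else 0) :=
        sum_comm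
    _ = ∑ v : Fin e → ZMod L, L.totient := by
        refine sum_congr rfl fun v _ => ?_
        rw [← card_filter]
        exact hfib _
    _ = L ^ e * L.totient := by
        rw [sum_const, card_univ, smul_eq_mul]
        simp [ZMod.card]

lemma card_residue_le {L : ℕ} [NeZero L] (H : ℕ) (ρ : ZMod L) :
    ((Icc 1 H).filter (fun a : ℕ => (a : ZMod L) = ρ)).card ≤ H / L + 1 := by
  calc ((Icc 1 H).filter (fun a : ℕ => (a : ZMod L) = ρ)).card
      ≤ (range (H / L + 1)).card := by
        refine card_le_card_of_injOn (fun a => a / L) ?_ ?_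
        · intro a ha
          simp only [coe_filter, mem_Icc, Set.mem_ofPred_eq] at ha
          simp only [coe_range, Set.mem_Iio]
          exact Nat.lt_succ_of_le (Nat.div_le_div_right ha.1.2)
        · intro a ha b hb hab
          simp only [coe_filter, mem_Icc, Set.mem_ofPred_eq] at ha hb
          have h1 : (a : ZMod L) = (b : ZMod L) := ha.2.trans hb.2.symm
          rw [ZMod.natCast_eq_natCast_iff] at h1
          have h2 : a % L = b % L := h1
          have h3 : a / L = b / L := hab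
          rw [← Nat.div_add_mod a L, ← Nat.div_add_mod b L, h2, h3]
    _ = H / L + 1 := card_range _

/-- Passing from residues to boxes. -/
lemma card_box_le {L : ℕ} [NeZero L] {e : ℕ} (H : ℕ) (P : (Fin e → ZMod L) → Prop)
    [DecidablePred P] :
    ((Fintype.piFinset fun _ : Fin e => Icc 1 H).filter
      (fun q => P (fun i => ((q i : ℕ) : ZMod L)))).card ≤
      (H / L + 1) ^ e * (univ.filter P).card := by
  classical
  rw [card_eq_sum_card_fiberwise (f := fun q : Fin e → ℕ => fun i => ((q i : ℕ) : ZMod L))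
    (t := univ.filter P) (fun q hq => by
      simp only [coe_filter, Set.mem_ofPred_eq] at hq
      simpa using hq.2)]
  calc _ ≤ ∑ v ∈ univ.filter P, (H / L + 1) ^ e := by
        refine sum_le_sum fun v _ => ?_
        calc _ ≤ (Fintype.piFinset fun i : Fin e =>
              (Icc 1 H).filter (fun a : ℕ => (a : ZMod L) = v i)).card := by
                refine card_le_card fun q hq => ?_
                simp only [mem_filter, Fintype.mem_piFinset] at hq ⊢
                intro i
                exact ⟨hq.1.1 i, congrFun hq.2 i⟩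
          _ = ∏ i : Fin e, ((Icc 1 H).filter (fun a : ℕ => (a : ZMod L) = v i)).card :=
                Fintype.card_piFinset _
          _ ≤ ∏ _i : Fin e, (H / L + 1) := prod_le_prod' fun i _ => card_residue_le H (v i)
          _ = (H / L + 1) ^ e := by simp
    _ = (H / L + 1) ^ e * (univ.filter P).card := by
        rw [sum_const, smul_eq_mul, mul_comm]

/-- Comparison of the local factors. -/
lemma local_factor_le (d r : ℕ) (hr : 0 < r) :
    ((2 * r : ℕ) : ℝ) / ((2 * r).totient : ℝ) * (((Lf d r).totient : ℝ) / (Lf d r : ℝ)) ≤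
      2 * G d r := by
  have htot : ∀ n : ℕ, (n.totient : ℝ) = n * ∏ p ∈ n.primeFactors, (1 - (p : ℝ)⁻¹) := by
    intro n
    have := Nat.totient_eq_mul_prod_factors n
    have h2 : ((n.totient : ℚ) : ℝ) = ((n * ∏ p ∈ n.primeFactors, (1 - (p : ℚ)⁻¹) : ℚ) : ℝ) := by
      rw [this]
    push_cast at h2
    exact h2
  have hLpos : (0:ℝ) < Lf d r := by exact_mod_cast Lf_pos d r
  have hMpos : (0:ℝ) < ((2 * r : ℕ) : ℝ) := by positivity
  have hfac : ∀ p : ℕ, p.Prime → 0 < 1 - (p:ℝ)⁻¹ := by
    intro p hp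
    have : (1:ℝ) < p := by exact_mod_cast hp.one_lt
    have := inv_lt_one_of_one_lt₀ this
    linarith
  have h1 : ((Lf d r).totient : ℝ) / (Lf d r : ℝ) = ∏ p ∈ freeP d r, (1 - (p : ℝ)⁻¹) := by
    rw [htot, primeFactors_Lf, mul_div_cancel_left₀ _ hLpos.ne']
  have hpf : (2 * r).primeFactors = insert 2 ((oddP r).filter (fun l => l ∣ r)) := by
    rw [Nat.primeFactors_mul (by norm_num) hr.ne', Nat.Prime.primeFactors Nat.prime_two]
    ext p
    simp only [mem_union, mem_singleton, Nat.mem_primeFactors, mem_insert, mem_filter, mem_oddP]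
    constructor
    · rintro (h | ⟨h1, h2, h3⟩)
      · exact Or.inl h
      · by_cases h : p = 2
        · exact Or.inl h
        · have := h1.two_le
          have := Nat.le_of_dvd hr h2
          exact Or.inr ⟨⟨⟨by omega, this⟩, h1⟩, h2⟩
    · rintro (h | ⟨⟨_, h1⟩, h2⟩)
      · exact Or.inl h
      · exact Or.inr ⟨h1, h2, hr.ne'⟩
  have h2 : ((2 * r : ℕ) : ℝ) / ((2 * r).totient : ℝ) =
      2 * ∏ p ∈ (oddP r).filter (fun l => l ∣ r), (1 - (p : ℝ)⁻¹)⁻¹ := by
    rw [htot, hpf, prod_insert (by simp [mem_oddP])]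
    rw [← div_div, div_self hMpos.ne', prod_inv_distrib]
    norm_num
    ring
  have hsplit : ∏ p ∈ (oddP r).filter (fun l => l ∣ r), (1 - (p : ℝ)⁻¹)⁻¹ =
      (∏ p ∈ (oddP r).filter (fun l => qq d l ∣ r), (1 - (p : ℝ)⁻¹)⁻¹) *
        ∏ p ∈ freeP d r, (1 - (p : ℝ)⁻¹)⁻¹ := by
    rw [← prod_union]
    · congr 1
      ext l
      simp only [mem_union, mem_filter, freeP]
      constructor
      · rintro ⟨a, b⟩
        by_cases h : qq d l ∣ r
        · exact Or.inl ⟨a, h⟩
        · exact Or.inr ⟨a, b, h⟩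
      · rintro (⟨a, b⟩ | ⟨a, b, _⟩)
        · exact ⟨a, (dvd_qq d l).trans b⟩
        · exact ⟨a, b⟩
    · rw [disjoint_left]
      intro l hl hl'
      simp only [mem_filter, freeP] at hl hl'
      exact hl'.2.2 hl.2
  have hG : G d r = ∏ p ∈ (oddP r).filter (fun l => qq d l ∣ r), (1 - (p : ℝ)⁻¹)⁻¹ := by
    unfold G
    refine prod_congr rfl fun l hl => ?_
    have h3 : (3:ℝ) ≤ l := by
      rw [mem_filter, mem_oddP] at hl
      exact_mod_cast hl.1.1.1
    have h4 : (l:ℝ) - 1 ≠ 0 := by linarith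
    have h5 : (l:ℝ) ≠ 0 := by linarith
    rw [eq_comm, inv_eq_iff_eq_inv, inv_div]
    field_simp
  rw [h1, h2, hsplit, hG]
  have hcancel : (∏ p ∈ freeP d r, (1 - (p : ℝ)⁻¹)⁻¹) * ∏ p ∈ freeP d r, (1 - (p : ℝ)⁻¹) = 1 := by
    rw [← prod_mul_distrib]
    refine prod_eq_one fun p hp => ?_
    exact inv_mul_cancel₀ (hfac p (mem_freeP.mp hp).1.2).ne'
  rw [mul_assoc, mul_assoc, hcancel, mul_one]

end Pool.Agent.PnPoly
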