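import Pool.Agent.PnPoly.Moments

/-!
# The main asymptotic statement
-/

open Finset Filter Topology

namespace Pool.Agent.PnPoly

lemma th_one_le (H : ℕ) (a : ZMod 1) :
    th H 1 a ≤ (Nat.count Nat.Prime (H + 1) : ℝ) * Real.log H := by
  unfold th
  calc ∑ p ∈ (Icc 1 H).filter (fun p : ℕ => p.Prime ∧ (p : ZMod 1) = a), Real.log p ≤
      ∑ _p ∈ (Icc 1 H).filter (fun p : ℕ => p.Prime ∧ (p : ZMod 1) = a), Real.log H := by
        refine sum_le_sum fun p hp => ?_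
        rw [mem_filter, mem_Icc] at hp
        exact Real.log_le_log (by exact_mod_cast hp.1.1) (by exact_mod_cast hp.1.2)
    _ = (((Icc 1 H).filter (fun p : ℕ => p.Prime ∧ (p : ZMod 1) = a)).card : ℝ) * Real.log H := by
        rw [sum_const, nsmul_eq_mul]
    _ ≤ _ := by
        refine mul_le_mul_of_nonneg_right ?_ (Real.log_natCast_nonneg H)
        rw [Nat.count_eq_card_filter_range]
        have : ((Icc 1 H).filter (fun p : ℕ => p.Prime ∧ (p : ZMod 1) = a)).card ≤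
            ((range (H + 1)).filter Nat.Prime).card := by
          refine card_le_card fun p hp => ?_
          rw [mem_filter, mem_Icc] at hp
          rw [mem_filter, mem_range]
          exact ⟨by omega, hp.2.1⟩
        exact_mod_cast this

lemma pr_le_of_count {N H : ℕ} (hN : 1 ≤ N) (h : N ≤ Nat.count Nat.Prime (H + 1)) : pr N ≤ H := by
  unfold pr
  have h1 : N - 1 < Nat.count Nat.Prime (H + 1) := by omega
  have := Nat.nth_lt_of_lt_count h1
  omega

/-- The length of the range of indices. -/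
noncomputable def NN (C : ℝ) (H : ℕ) : ℕ := ⌊C * Real.log H⌋₊

/-- The size bound. -/
noncomputable def XB (D H : ℕ) : ℕ := ⌊(H : ℝ) * Real.log H ^ D⌋₊

lemma NN_le {C : ℝ} (hC : 0 ≤ C) (H : ℕ) : (NN C H : ℝ) ≤ C * Real.log H := by
  unfold NN
  exact Nat.floor_le (mul_nonneg hC (Real.log_natCast_nonneg H))

lemma XB_le (D H : ℕ) : (XB D H : ℝ) ≤ H * Real.log H ^ D := by
  unfold XB
  exact Nat.floor_le (mul_nonneg (Nat.cast_nonneg H) (pow_nonneg (Real.log_natCast_nonneg H) _))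

lemma le_XB {D H : ℕ} (h : 1 ≤ Real.log H) : H ≤ XB D H := by
  unfold XB
  refine Nat.le_floor ?_
  exact le_mul_of_one_le_right (Nat.cast_nonneg H) (one_le_pow₀ h)

lemma size_eventually (e A : ℕ) {C : ℝ} (hC : 0 ≤ C) : ∀ᶠ H : ℕ in atTop,
    (2 * NN C H : ℕ) ≤ Real.log H ^ (A + e + 3) ∧
    ∀ β : ℕ → ℕ, (∀ n, 2 ≤ n → n ≤ NN C H → (β n : ℝ) ≤ H * Real.log H ^ A) →
      ∀ q ∈ box e H, ∀ n, 2 ≤ n → n ≤ NN C H → al β q n + 2 * (H + H * n) ≤ XB (A + e + 3) H := by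
  filter_upwards [tendsto_log_nat.eventually_ge_atTop (2 * e * C ^ (e + 1) + 3 + 2 * C),
    tendsto_log_nat.eventually_ge_atTop 2] with H h1 h2'
  have h3 := NN_le hC H
  have hH0 : (0:ℝ) ≤ H := Nat.cast_nonneg H
  set L := Real.log H
  set N := NN C H
  have h2 : 1 ≤ L := by linarith
  have hL0 : 0 < L := by linarith
  have hN0 : (0:ℝ) ≤ N := Nat.cast_nonneg N
  have h4 : (N:ℝ) ^ (e + 1) ≤ (C * L) ^ (e + 1) := pow_le_pow_left₀ hN0 h3 _
  have hL1 : 1 ≤ L ^ (e + 1) := one_le_pow₀ h2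
  have hL2 : L ≤ L ^ (e + 1) := by
    calc L = L ^ 1 := (pow_one L).symm
      _ ≤ L ^ (e + 1) := pow_le_pow_right₀ h2 (by omega)
  have hmul : 2 * (e:ℝ) * (N:ℝ) ^ (e + 1) + 2 * (1 + N) + 1 ≤ L ^ (e + 2) := by
    calc 2 * (e:ℝ) * (N:ℝ) ^ (e + 1) + 2 * (1 + N) + 1 ≤
        2 * e * (C * L) ^ (e + 1) + 2 * (1 + C * L) + 1 := by gcongr
      _ = 2 * e * C ^ (e + 1) * L ^ (e + 1) + 3 * 1 + 2 * C * L := by rw [mul_pow]; ring
      _ ≤ 2 * e * C ^ (e + 1) * L ^ (e + 1) + 3 * L ^ (e + 1) + 2 * C * L ^ (e + 1) := by gcongr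
      _ = (2 * e * C ^ (e + 1) + 3 + 2 * C) * L ^ (e + 1) := by ring
      _ ≤ L * L ^ (e + 1) := by gcongr
      _ = L ^ (e + 2) := by ring
  have hpow : L ^ A + L ^ (e + 2) ≤ L ^ (A + e + 3) := by
    have h5 : L ^ A ≤ L ^ (A + e + 2) := pow_le_pow_right₀ h2 (by omega)
    have h6 : L ^ (e + 2) ≤ L ^ (A + e + 2) := pow_le_pow_right₀ h2 (by omega)
    calc L ^ A + L ^ (e + 2) ≤ 2 * L ^ (A + e + 2) := by linarith
      _ ≤ L * L ^ (A + e + 2) := by gcongr
      _ = L ^ (A + e + 3) := by ring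
  have hLA : 0 ≤ L ^ A := by positivity
  constructor
  · push_cast
    have h7 : 0 ≤ 2 * (e:ℝ) * (N:ℝ) ^ (e + 1) := by positivity
    linarith
  · intro β hβ q hq n hn2 hn
    unfold XB
    refine Nat.le_floor ?_
    have hb := hβ n hn2 hn
    have hQ : Qv q n ≤ e * (H * N ^ (e + 1)) := by
      unfold Qv
      calc ∑ i : Fin e, q i * n.choose (i + 2) ≤ ∑ _i : Fin e, H * N ^ (e + 1) := by
            refine sum_le_sum fun i _ => ?_
            unfold box at hq
            rw [Fintype.mem_piFinset] at hq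
            have h2 := mem_Icc.mp (hq i)
            refine Nat.mul_le_mul h2.2 ?_
            refine (Nat.choose_le_pow n (i + 2)).trans ?_
            have := i.2
            exact (Nat.pow_le_pow_left hn _).trans (Nat.pow_le_pow_right (by omega) (by omega))
        _ = e * (H * N ^ (e + 1)) := by rw [sum_const, card_univ, Fintype.card_fin, smul_eq_mul]
    have hQ' : (Qv q n : ℝ) ≤ e * (H * (N:ℝ) ^ (e + 1)) := by exact_mod_cast hQ
    have hn' : (n:ℝ) ≤ N := by exact_mod_cast hn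
    unfold al
    push_cast
    calc (β n : ℝ) + 2 * (Qv q n : ℝ) + 2 * (H + H * n) ≤
        H * L ^ A + 2 * (e * (H * (N:ℝ) ^ (e + 1))) + 2 * (H + H * N) := by gcongr
      _ = H * (L ^ A + (2 * e * (N:ℝ) ^ (e + 1) + 2 * (1 + N))) := by ring
      _ ≤ H * (L ^ A + L ^ (e + 2)) := by gcongr; linarith
      _ ≤ H * L ^ (A + e + 3) := by gcongr

lemma log_sq_div_tendsto : Tendsto (fun H : ℕ => Real.log H ^ 2 / (H : ℝ)) atTop (𝓝 0) := by
  have h1 : (fun x : ℝ => Real.log x ^ 2) =o[atTop] (fun x : ℝ => x ^ (1 : ℝ)) := by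
    have := isLittleO_log_rpow_rpow_atTop (2 : ℝ) (show (0:ℝ) < 1 by norm_num)
    simpa using this
  have h2 := h1.tendsto_div_nhds_zero
  have h3 := h2.comp tendsto_natCast_atTop_atTop
  refine h3.congr fun H => ?_
  simp only [Function.comp_apply, Real.rpow_one]

lemma log_log_div_tendsto :
    Tendsto (fun H : ℕ => Real.log (Real.log H) / Real.log H) atTop (𝓝 0) := by
  have h1 : Tendsto (fun x : ℝ => Real.log x / x) atTop (𝓝 0) := by
    have := Real.isLittleO_log_id_atTop.tendsto_div_nhds_zero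
    simpa using this
  exact h1.comp tendsto_log_nat

/-- The main statement for triples. -/
theorem good_asymp (e K : ℕ) {κ η : ℝ} (hκ : ∀ R, kap (e + 1) R ≤ κ) (hη0 : 0 ≤ η)
    (hη1 : η ≤ 1) (hη : η * κ < 1) :
    ∃ C : ℝ, 0 < C ∧ ∀ A : ℕ, ∀ᶠ H : ℕ in atTop, ∀ β : ℕ → ℕ,
      (∀ n, 2 ≤ n → n ≤ ⌊C * Real.log H⌋₊ → β n % 2 = 1) →
      (∀ n, 2 ≤ n → n ≤ ⌊C * Real.log H⌋₊ → (β n : ℝ) ≤ H * Real.log H ^ A) →
      η * (H:ℝ) ^ (e + 2) ≤ ((Good β e H ⌊C * Real.log H⌋₊ K).card : ℝ) := by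
  have hκ0 : 0 ≤ κ := (kap_pos (e + 1) 0).le.trans (hκ 0)
  have hgap : 0 < 1 - η * κ := by linarith
  have hgap1 : 1 - η * κ ≤ 1 := by nlinarith
  set C : ℝ := (4 * K + 2 * η + 1) / (4 * (1 - η * κ)) with hCdef
  have hC : 0 < C := by positivity
  have hCeq : 4 * (1 - η * κ) * C = 4 * K + 2 * η + 1 := by
    rw [hCdef]; field_simp
  have hCK : (K:ℝ) < 2 * C := by
    have hK0 : (0:ℝ) ≤ K := Nat.cast_nonneg K
    have : 4 * (1 - η * κ) * C ≤ 4 * C := by nlinarith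
    linarith
  refine ⟨C, hC, fun A => ?_⟩
  -- the basic sequences
  set ν : ℕ → ℝ := fun H => (NN C H : ℝ) / Real.log H with hν
  set ι : ℕ → ℝ := fun H => 1 / Real.log H with hι
  set τ : ℕ → ℝ := fun H => Real.log H ^ 2 / (H:ℝ) with hτ
  set lam : ℕ → ℝ := fun H => Real.log (XB (A + e + 3) H : ℝ) / Real.log H with hlam
  have tν : Tendsto ν atTop (𝓝 C) := by
    have := (tendsto_nat_floor_mul_div_atTop (R := ℝ) hC.le).comp tendsto_log_nat
    exact this
  have tι : Tendsto ι atTop (𝓝 0) := by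
    have : Tendsto (fun x : ℝ => 1 / x) atTop (𝓝 0) := by
      simpa using tendsto_inv_atTop_zero (𝕜 := ℝ)
    exact this.comp tendsto_log_nat
  have tτ : Tendsto τ atTop (𝓝 0) := log_sq_div_tendsto
  have elam : ∀ᶠ H : ℕ in atTop, 1 ≤ lam H ∧
      lam H ≤ 1 + (A + e + 3 : ℕ) * (Real.log (Real.log H) / Real.log H) := by
    filter_upwards [tendsto_log_nat.eventually_ge_atTop 1, eventually_ge_atTop 1] with H h2 h3
    have hL : 0 < Real.log H := by linarith
    have hH0 : (0:ℝ) < H := by exact_mod_cast h3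
    have hXH : (H:ℝ) ≤ XB (A + e + 3) H := by exact_mod_cast le_XB h2
    have hX0 : (0:ℝ) < XB (A + e + 3) H := hH0.trans_le hXH
    have hlog1 : Real.log H ≤ Real.log (XB (A + e + 3) H : ℝ) := Real.log_le_log hH0 hXH
    have hlog2 : Real.log (XB (A + e + 3) H : ℝ) ≤
        Real.log H + (A + e + 3 : ℕ) * Real.log (Real.log H) := by
      rw [← Real.log_pow, ← Real.log_mul hH0.ne' (by positivity)]
      exact Real.log_le_log hX0 (XB_le _ _)
    constructor
    · rw [hlam]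
      simp only
      rw [le_div_iff₀ hL]; linarith
    · rw [hlam]
      simp only
      rw [div_le_iff₀ hL]
      have : (1 + ((A + e + 3 : ℕ) : ℝ) * (Real.log (Real.log H) / Real.log H)) * Real.log H =
          Real.log H + (A + e + 3 : ℕ) * Real.log (Real.log H) := by field_simp
      rw [this]; linarith
  have tlam : Tendsto lam atTop (𝓝 1) := by
    have t1 : Tendsto (fun H : ℕ => 1 + ((A + e + 3 : ℕ) : ℝ) *
        (Real.log (Real.log H) / Real.log H)) atTop (𝓝 1) := by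
      have := (log_log_div_tendsto.const_mul ((A + e + 3 : ℕ) : ℝ)).const_add 1
      simpa using this
    exact tendsto_of_tendsto_of_tendsto_of_le_of_le' tendsto_const_nhds t1
      (elam.mono fun H h => h.1) (elam.mono fun H h => h.2)
  set a : ℕ → ℝ := fun H => (ν H - ι H) * (2 - 2 * ι H ^ 3) - K * lam H with ha
  set b : ℕ → ℝ := fun H => ν H * lam H * (2 + 2 * ι H ^ 3) +
    2 * κ * ν H ^ 2 * ((2 + 4 * ν H * ι H ^ 2) * (1 + ν H * τ H * ι H) ^ e) +
    2 * ν H ^ 2 * (4 * ν H ^ 2 * τ H + 2 * ι H * (ι H + ν H) * lam H) with hb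
  have ta : Tendsto a atTop (𝓝 (2 * C - K)) := by
    have := ((tν.sub tι).mul (((tι.pow 3).const_mul 2).const_sub 2)).sub (tlam.const_mul (K:ℝ))
    refine this.trans_eq ?_ 
    congr 1; ring
  have tb : Tendsto b atTop (𝓝 (2 * C + 4 * κ * C ^ 2)) := by
    have t1 := (tν.mul tlam).mul (((tι.pow 3).const_mul 2).const_add 2)
    have t2 := ((tν.pow 2).const_mul (2 * κ)).mul
      ((((tν.const_mul 4).mul (tι.pow 2)).const_add 2).mul
        ((((tν.mul tτ).mul tι).const_add 1).pow e))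
    have t3 := ((tν.pow 2).const_mul 2).mul ((((tν.pow 2).const_mul 4).mul tτ).add
      (((tι.const_mul 2).mul (tι.add tν)).mul tlam))
    have := (t1.add t2).add t3
    refine this.trans_eq ?_
    congr 1; simp; ring
  have tab : Tendsto (fun H => a H ^ 2 - η * b H) atTop
      (𝓝 ((2 * C - K) ^ 2 - η * (2 * C + 4 * κ * C ^ 2))) :=
    (ta.pow 2).sub (tb.const_mul η)
  have hlim : 0 < (2 * C - K) ^ 2 - η * (2 * C + 4 * κ * C ^ 2) := by
    have : (2 * C - K) ^ 2 - η * (2 * C + 4 * κ * C ^ 2) =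
        (4 * (1 - η * κ) * C) * C - (4 * K + 2 * η) * C + (K:ℝ) ^ 2 := by ring
    rw [this, hCeq]
    nlinarith [sq_nonneg (K:ℝ)]
  have eab := tab.eventually (lt_mem_nhds hlim)
  have ea := ta.eventually (lt_mem_nhds (show (0:ℝ) < 2 * C - K by linarith))
  have eb := tb.eventually (lt_mem_nhds (show (0:ℝ) < 2 * C + 4 * κ * C ^ 2 by positivity))
  have eν := tν.eventually (lt_mem_nhds hC)
  filter_upwards [eab, ea, eb, sw_uniform (A + e + 3) 3, size_eventually e A hC.le,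
    tendsto_log_nat.eventually_ge_atTop 2, eventually_ge_atTop 1, eν]
    with H hab haH hbH hsw hsize hL2 hH1 hνH β hβodd hβsize
  set L := Real.log H with hLdef
  set N := NN C H with hNdef
  set X := XB (A + e + 3) H with hXdef
  set E : ℝ := H / L ^ 3 with hEdef
  have hL : 0 < L := by linarith
  have hH0 : (0:ℝ) < H := by exact_mod_cast hH1
  have hE0 : 0 ≤ E := by positivity
  have eν' : ν H = (N:ℝ) / L := rfl
  have eι' : ι H = 1 / L := rfl
  have eτ' : τ H = L ^ 2 / (H:ℝ) := rfl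
  have elam' : lam H = Real.log (X:ℝ) / L := rfl
  have hNν : (N:ℝ) = ν H * L := by rw [eν']; field_simp
  have hN1 : 1 ≤ N := by
    have : (0:ℝ) < N := by rw [hNν]; positivity
    exact_mod_cast this
  have hSW : ∀ x : ℕ, x ≤ X → ∀ M : ℕ, 1 ≤ M → M ≤ 2 * N → ∀ a : ZMod M, IsUnit a →
      |th x M a - x / M.totient| ≤ E := by
    intro x hx M hM hMN a ha
    refine hsw x ?_ M hM ?_ a ha
    · have : (x:ℝ) ≤ X := by exact_mod_cast hx
      exact this.trans (XB_le _ _)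
    · have : (M:ℝ) ≤ (2 * N : ℕ) := by exact_mod_cast hMN
      exact this.trans hsize.1
  have hX : ∀ q ∈ box e H, ∀ n, 2 ≤ n → n ≤ N → al β q n + 2 * (H + H * n) ≤ X :=
    hsize.2 β hβsize
  -- normalisation
  have hlogX : Real.log (X : ℝ) = lam H * L := by
    rw [elam']; field_simp
  have hEH : E = H * ι H ^ 3 := by rw [hEdef, eι']; field_simp
  have hιL : ι H * L = 1 := by rw [eι']; field_simp
  have hHτ : (H:ℝ) * τ H = L ^ 2 := by rw [eτ']; field_simp
  have hm1 : ((N : ℝ) - 1) * ((H : ℝ) ^ (e + 1) * (2 * H - 2 * E)) -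
      K * Real.log X * (H:ℝ) ^ (e + 2) = (H:ℝ) ^ (e + 2) * L * a H := by
    rw [hlogX, hNν, hEH, ha]
    simp only
    have : (1:ℝ) = ι H * L := hιL.symm
    calc (ν H * L - 1) * ((H : ℝ) ^ (e + 1) * (2 * H - 2 * (H * ι H ^ 3))) -
      K * (lam H * L) * (H:ℝ) ^ (e + 2) =
        (ν H * L - ι H * L) * ((H : ℝ) ^ (e + 1) * (2 * H - 2 * (H * ι H ^ 3))) -
      K * (lam H * L) * (H:ℝ) ^ (e + 2) := by rw [hιL]
      _ = _ := by ring
  have hpos : 0 ≤ ((N : ℝ) - 1) * ((H : ℝ) ^ (e + 1) * (2 * H - 2 * E)) -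
      K * Real.log X * (H:ℝ) ^ (e + 2) := by
    rw [hm1]; positivity
  have hcs := good_sq_le (K := K) hN1 hSW hβodd hX hpos
  have hM2 := M2_le (H := H) hκ hN1 hE0 hSW hβodd hX
  have hlog2N : Real.log ((2 * N : ℕ) : ℝ) ≤ 2 * N := by
    have h1 : (0:ℝ) < ((2 * N : ℕ) : ℝ) := by positivity
    have h2 := Real.log_le_sub_one_of_pos h1
    push_cast at h2 ⊢
    linarith
  have hM2b : ∑ t ∈ T e H, XX β N t ^ 2 ≤ (H:ℝ) ^ (e + 2) * L ^ 2 * b H := by
    refine hM2.trans ?_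
    have hstep : 2 * (N:ℝ) ^ 2 * ((H : ℝ) ^ (e + 1) *
        (2 * N * Real.log ((2 * N : ℕ) : ℝ) + 2 * E * (1 + N) * Real.log X)) ≤
        2 * (N:ℝ) ^ 2 * ((H : ℝ) ^ (e + 1) *
        (2 * N * (2 * N) + 2 * E * (1 + N) * Real.log X)) := by
      gcongr
    refine (add_le_add le_rfl hstep).trans (le_of_eq ?_)
    rw [hlogX]
    have hHN : (H:ℝ) + N = H * (1 + ν H * τ H * ι H) := by
      have : (H:ℝ) * (ν H * τ H * ι H) = N := by
        calc (H:ℝ) * (ν H * τ H * ι H) = ν H * (H * τ H) * ι H := by ring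
          _ = ν H * L * (ι H * L) := by rw [hHτ]; ring
          _ = N := by rw [hιL, mul_one, hNν]
      rw [mul_add, this, mul_one]
    have hA : (H:ℝ) * (2 * H + 4 * N * E) * ((H : ℝ) + N) ^ e =
        (H:ℝ) ^ (e + 2) * ((2 + 4 * ν H * ι H ^ 2) * (1 + ν H * τ H * ι H) ^ e) := by
      rw [hHN, mul_pow, hEH, hNν]
      have : 4 * (ν H * L) * (H * ι H ^ 3) = H * (4 * ν H * ι H ^ 2) * (ι H * L) := by ring
      rw [this, hιL]
      ring
    have hB : (H : ℝ) ^ (e + 1) * (2 * N * (2 * N) + 2 * E * (1 + N) * (lam H * L)) =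
        (H:ℝ) ^ (e + 2) * (4 * ν H ^ 2 * τ H + 2 * ι H * (ι H + ν H) * lam H) := by
      have h1 : (2:ℝ) * N * (2 * N) = H * (4 * ν H ^ 2 * τ H) := by
        rw [hNν]
        calc 2 * (ν H * L) * (2 * (ν H * L)) = 4 * ν H ^ 2 * L ^ 2 := by ring
          _ = _ := by rw [← hHτ]; ring
      have h2 : 2 * E * (1 + (N:ℝ)) * (lam H * L) = H * (2 * ι H * (ι H + ν H) * lam H) := by
        rw [hEH, hNν]
        calc 2 * (H * ι H ^ 3) * (1 + ν H * L) * (lam H * L) =
            H * (2 * ι H * (ι H * 1 + ν H * (ι H * L)) * lam H) * (ι H * L) := by ring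
          _ = _ := by rw [hιL]; ring
      rw [h1, h2]; ring
    rw [hA, hB, hEH, hNν, hb]
    simp only
    ring
  have hfin : ((H:ℝ) ^ (e + 2) * L * a H) ^ 2 ≤
      ((Good β e H N K).card : ℝ) * ((H:ℝ) ^ (e + 2) * L ^ 2 * b H) := by
    rw [hm1] at hcs
    exact hcs.trans (mul_le_mul_of_nonneg_left hM2b (Nat.cast_nonneg _))
  have hHp : (0:ℝ) < (H:ℝ) ^ (e + 2) := by positivity
  have hfin2 : (H:ℝ) ^ (e + 2) * a H ^ 2 ≤ ((Good β e H N K).card : ℝ) * b H := by
    have h1 : 0 < (H:ℝ) ^ (e + 2) * L ^ 2 := by positivity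
    refine le_of_mul_le_mul_left ?_ h1
    calc (H:ℝ) ^ (e + 2) * L ^ 2 * ((H:ℝ) ^ (e + 2) * a H ^ 2) =
        ((H:ℝ) ^ (e + 2) * L * a H) ^ 2 := by ring
      _ ≤ _ := hfin
      _ = _ := by ring
  have hfin3 : (H:ℝ) ^ (e + 2) * (η * b H) ≤ ((Good β e H N K).card : ℝ) * b H := by
    refine le_trans ?_ hfin2
    exact mul_le_mul_of_nonneg_left (by linarith) hHp.le
  refine le_of_mul_le_mul_right ?_ hbH
  calc η * (H:ℝ) ^ (e + 2) * b H = (H:ℝ) ^ (e + 2) * (η * b H) := by ring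
    _ ≤ _ := hfin3

end Pool.Agent.PnPoly
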