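import Pool.Agent.PnPoly.Rho

/-!
# Moments
-/

open Finset

namespace Pool.Agent.PnPoly

lemma sq_sum_eq (f : ℕ → ℝ) (N : ℕ) : (∑ n ∈ Icc 2 N, f n) ^ 2 =
    ∑ n ∈ Icc 2 N, (f n ^ 2 + 2 * ∑ m ∈ Ico 2 n, f m * f n) := by
  induction N with
  | zero => simp
  | succ N ih =>
    rcases Nat.lt_or_ge (N + 1) 2 with h | h
    · rw [Icc_eq_empty_of_lt h]; simp
    · rw [sum_Icc_succ_top h, sum_Icc_succ_top h, ← ih]
      have : Ico 2 (N + 1) = Icc 2 N := by ext x; rw [mem_Ico, mem_Icc]; omega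
      rw [this, ← sum_mul]
      ring

/-- The triples `(q, c1, c0)`. -/
def T (e H : ℕ) : Finset ((Fin e → ℕ) × ℕ × ℕ) := box e H ×ˢ Ioc 0 H ×ˢ Ioc 0 H

lemma sum_T {e H : ℕ} (f : (Fin e → ℕ) × ℕ × ℕ → ℝ) :
    ∑ t ∈ T e H, f t = ∑ q ∈ box e H, ∑ c1 ∈ Ioc 0 H, ∑ c0 ∈ Ioc 0 H, f (q, c1, c0) := by
  unfold T
  rw [sum_product]
  refine sum_congr rfl fun q _ => ?_
  rw [sum_product]

lemma card_T (e H : ℕ) : (T e H).card = H ^ (e + 2) := by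
  unfold T
  rw [card_product, card_product, card_box, Nat.card_Ioc]
  simp only [Nat.sub_zero]
  ring

/-- The weighted count of primes. -/
noncomputable def XX {e : ℕ} (β : ℕ → ℕ) (N : ℕ) (t : (Fin e → ℕ) × ℕ × ℕ) : ℝ :=
  ∑ n ∈ Icc 2 N, w (uu β t.1 t.2.2 t.2.1 n)

lemma XX_nonneg {e : ℕ} (β : ℕ → ℕ) (N : ℕ) (t : (Fin e → ℕ) × ℕ × ℕ) : 0 ≤ XX β N t :=
  sum_nonneg fun _ _ => w_nonneg _

section Env

variable {e H N X : ℕ} {E : ℝ} {β : ℕ → ℕ}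

lemma uu_le {q : Fin e → ℕ} {c0 c1 n : ℕ} (hX : al β q n + 2 * (H + H * n) ≤ X)
    (h0 : c0 ≤ H) (h1 : c1 ≤ H) : uu β q c0 c1 n ≤ X := by
  unfold uu
  have : c1 * n ≤ H * n := Nat.mul_le_mul_right n h1
  omega

lemma M1_ge (hN : 1 ≤ N)
    (hSW : ∀ x : ℕ, x ≤ X → ∀ M : ℕ, 1 ≤ M → M ≤ 2 * N → ∀ a : ZMod M, IsUnit a →
      |th x M a - x / M.totient| ≤ E)
    (hβ : ∀ n, 2 ≤ n → n ≤ N → β n % 2 = 1)
    (hX : ∀ q ∈ box e H, ∀ n, 2 ≤ n → n ≤ N → al β q n + 2 * (H + H * n) ≤ X) :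
    ((N : ℝ) - 1) * ((H : ℝ) ^ (e + 1) * (2 * H - 2 * E)) ≤ ∑ t ∈ T e H, XX β N t := by
  have h1 : ∑ t ∈ T e H, XX β N t = ∑ n ∈ Icc 2 N, ∑ q ∈ box e H, ∑ c1 ∈ Ioc 0 H,
      ∑ c0 ∈ Ioc 0 H, w (uu β q c0 c1 n) := by
    unfold XX
    rw [sum_comm]
    refine sum_congr rfl fun n _ => ?_
    rw [sum_T]
  rw [h1]
  have h2 : ∀ n ∈ Icc 2 N, (H : ℝ) ^ (e + 1) * (2 * H - 2 * E) ≤
      ∑ q ∈ box e H, ∑ c1 ∈ Ioc 0 H, ∑ c0 ∈ Ioc 0 H, w (uu β q c0 c1 n) := by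
    intro n hn
    rw [mem_Icc] at hn
    have h3 : ∀ q ∈ box e H, (H:ℝ) * (2 * H - 2 * E) ≤
        ∑ c1 ∈ Ioc 0 H, ∑ c0 ∈ Ioc 0 H, w (uu β q c0 c1 n) := by
      intro q hq
      have hXn : al β q n + 2 * (H + H * n) ≤ X := hX q hq n hn.1 hn.2
      have h6 : ∀ c1 ∈ Ioc 0 H, 2 * (H:ℝ) - 2 * E ≤ ∑ c0 ∈ Ioc 0 H, w (uu β q c0 c1 n) := by
        intro c1 hc1
        rw [mem_Ioc] at hc1
        have := (abs_le.mp (first_sum hN hSW hXn (hβ n hn.1 hn.2) hc1.2)).1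
        linarith
      calc (H:ℝ) * (2 * H - 2 * E) = ∑ _c1 ∈ Ioc 0 H, (2 * (H:ℝ) - 2 * E) := by
            rw [sum_const, Nat.card_Ioc, nsmul_eq_mul]; simp
        _ ≤ _ := sum_le_sum h6
    calc (H : ℝ) ^ (e + 1) * (2 * H - 2 * E) = ∑ _q ∈ box e H, (H:ℝ) * (2 * H - 2 * E) := by
          rw [sum_const, card_box, nsmul_eq_mul]; push_cast; ring
      _ ≤ _ := sum_le_sum h3
  calc ((N : ℝ) - 1) * ((H : ℝ) ^ (e + 1) * (2 * H - 2 * E))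
      = ∑ _n ∈ Icc 2 N, (H : ℝ) ^ (e + 1) * (2 * H - 2 * E) := by
        rw [sum_const, Nat.card_Icc, nsmul_eq_mul]
        have : ((N + 1 - 2 : ℕ) : ℝ) = (N:ℝ) - 1 := by
          have : N + 1 - 2 = N - 1 := by omega
          rw [this, Nat.cast_sub hN]; simp
        rw [this]
    _ ≤ _ := sum_le_sum h2

lemma diag_le (hN : 1 ≤ N)
    (hSW : ∀ x : ℕ, x ≤ X → ∀ M : ℕ, 1 ≤ M → M ≤ 2 * N → ∀ a : ZMod M, IsUnit a →
      |th x M a - x / M.totient| ≤ E)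
    {n : ℕ} (hβ : β n % 2 = 1) (hX : ∀ q ∈ box e H, al β q n + 2 * (H + H * n) ≤ X) :
    ∑ q ∈ box e H, ∑ c1 ∈ Ioc 0 H, ∑ c0 ∈ Ioc 0 H, w (uu β q c0 c1 n) ^ 2 ≤
      Real.log X * ((H : ℝ) ^ (e + 1) * (2 * H + 2 * E)) := by
  have hlogX : 0 ≤ Real.log X := Real.log_natCast_nonneg X
  have h3 : ∀ q ∈ box e H, ∑ c1 ∈ Ioc 0 H, ∑ c0 ∈ Ioc 0 H, w (uu β q c0 c1 n) ^ 2 ≤
      Real.log X * (H * (2 * H + 2 * E)) := by
    intro q hq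
    have h6 : ∀ c1 ∈ Ioc 0 H, ∑ c0 ∈ Ioc 0 H, w (uu β q c0 c1 n) ^ 2 ≤
        Real.log X * (2 * H + 2 * E) := by
      intro c1 hc1
      rw [mem_Ioc] at hc1
      have h7 := (abs_le.mp (first_sum hN hSW (hX q hq) hβ hc1.2)).2
      calc ∑ c0 ∈ Ioc 0 H, w (uu β q c0 c1 n) ^ 2 ≤
          ∑ c0 ∈ Ioc 0 H, Real.log X * w (uu β q c0 c1 n) := by
            refine sum_le_sum fun c0 hc0 => ?_
            rw [mem_Ioc] at hc0
            have h8 := w_le_log (uu_le (hX q hq) hc0.2 hc1.2)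
            have h9 := w_nonneg (uu β q c0 c1 n)
            nlinarith
        _ = Real.log X * ∑ c0 ∈ Ioc 0 H, w (uu β q c0 c1 n) := by rw [mul_sum]
        _ ≤ _ := mul_le_mul_of_nonneg_left (by linarith) hlogX
    calc _ ≤ ∑ _c1 ∈ Ioc 0 H, Real.log X * (2 * H + 2 * E) := sum_le_sum h6
      _ = _ := by
        rw [sum_const, Nat.card_Ioc, nsmul_eq_mul]
        simp only [Nat.sub_zero]
        ring
  calc _ ≤ ∑ _q ∈ box e H, Real.log X * (H * (2 * H + 2 * E)) := sum_le_sum h3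
    _ = _ := by
      rw [sum_const, card_box, nsmul_eq_mul]; push_cast; ring

lemma sum_G_pairs {κ : ℝ} (hκ : ∀ R, kap (e + 1) R ≤ κ) (N : ℕ) :
    ∑ n ∈ Icc 2 N, ∑ m ∈ Ico 2 n, G (e + 1) (n - m) ≤ κ * (N:ℝ) ^ 2 / 2 := by
  have hκ0 : 0 ≤ κ := (kap_pos (e + 1) 0).le.trans (hκ 0)
  have hG0 : ∀ r, 0 ≤ G (e + 1) r := fun r => zero_le_one.trans (one_le_G _ _)
  have h1 : ∀ n ∈ Icc 2 N, ∑ m ∈ Ico 2 n, G (e + 1) (n - m) ≤ κ * ((n:ℝ) - 1) := by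
    intro n hn
    rw [mem_Icc] at hn
    calc ∑ m ∈ Ico 2 n, G (e + 1) (n - m) ≤ ∑ m ∈ Ico 1 n, G (e + 1) (n - m) :=
          sum_le_sum_of_subset_of_nonneg (Ico_subset_Ico_left (by norm_num)) fun _ _ _ => hG0 _
      _ = ∑ r ∈ Ioc 0 (n - 1), G (e + 1) r := by
          refine sum_bij' (fun m _ => n - m) (fun r _ => n - r) ?_ ?_ ?_ ?_ ?_
          · intro m hm; rw [mem_Ico] at hm; rw [mem_Ioc]; omega
          · intro r hr; rw [mem_Ioc] at hr; rw [mem_Ico]; omega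
          · intro m hm; rw [mem_Ico] at hm; omega
          · intro r hr; rw [mem_Ioc] at hr; omega
          · intro m hm; rfl
      _ ≤ ((n - 1 : ℕ) : ℝ) * kap (e + 1) (n - 1) := sum_G_le _ _
      _ ≤ κ * ((n:ℝ) - 1) := by
          rw [Nat.cast_sub (by omega), mul_comm]
          have : (0:ℝ) ≤ (n:ℝ) - 1 := by
            have : (2:ℝ) ≤ n := by exact_mod_cast hn.1
            linarith
          push_cast
          exact mul_le_mul_of_nonneg_right (hκ _) this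
  refine (sum_le_sum h1).trans ?_
  rw [← mul_sum, mul_div_assoc]
  refine mul_le_mul_of_nonneg_left ?_ hκ0
  clear h1 hκ
  induction N with
  | zero => simp
  | succ N ih =>
    rcases Nat.lt_or_ge (N + 1) 2 with h | h
    · rw [Icc_eq_empty_of_lt h]; simp; positivity
    · rw [sum_Icc_succ_top h]
      push_cast
      push_cast at ih
      nlinarith

/-- The second moment. -/
lemma M2_le {κ : ℝ} (hκ : ∀ R, kap (e + 1) R ≤ κ) (hN : 1 ≤ N) (hE : 0 ≤ E)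
    (hSW : ∀ x : ℕ, x ≤ X → ∀ M : ℕ, 1 ≤ M → M ≤ 2 * N → ∀ a : ZMod M, IsUnit a →
      |th x M a - x / M.totient| ≤ E)
    (hβ : ∀ n, 2 ≤ n → n ≤ N → β n % 2 = 1)
    (hX : ∀ q ∈ box e H, ∀ n, 2 ≤ n → n ≤ N → al β q n + 2 * (H + H * n) ≤ X) :
    ∑ t ∈ T e H, XX β N t ^ 2 ≤
      N * (Real.log X * ((H : ℝ) ^ (e + 1) * (2 * H + 2 * E))) +
      2 * κ * (N:ℝ) ^ 2 * (H * (2 * H + 4 * N * E) * ((H : ℝ) + N) ^ e) +
      2 * (N:ℝ) ^ 2 * ((H : ℝ) ^ (e + 1) *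
        (2 * N * Real.log ((2 * N : ℕ) : ℝ) + 2 * E * (1 + N) * Real.log X)) := by
  set A : ℝ := H * (2 * H + 4 * N * E) * ((H : ℝ) + N) ^ e with hA
  set B : ℝ := (H : ℝ) ^ (e + 1) *
        (2 * N * Real.log ((2 * N : ℕ) : ℝ) + 2 * E * (1 + N) * Real.log X) with hB
  set Dg : ℝ := Real.log X * ((H : ℝ) ^ (e + 1) * (2 * H + 2 * E)) with hDg
  have hlogX : 0 ≤ Real.log X := Real.log_natCast_nonneg X
  have hlogN : 0 ≤ Real.log ((2 * N : ℕ) : ℝ) := Real.log_natCast_nonneg _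
  have hA0 : 0 ≤ A := by positivity
  have hB0 : 0 ≤ B := by positivity
  have hDg0 : 0 ≤ Dg := by positivity
  have hXn : ∀ n, 2 ≤ n → n ≤ N → ∀ q ∈ box e H, al β q n + 2 * (H + H * n) ≤ X :=
    fun n hn2 hn q hq => hX q hq n hn2 hn
  have h1 : ∑ t ∈ T e H, XX β N t ^ 2 = ∑ n ∈ Icc 2 N,
      ((∑ q ∈ box e H, ∑ c1 ∈ Ioc 0 H, ∑ c0 ∈ Ioc 0 H, w (uu β q c0 c1 n) ^ 2) +
        2 * ∑ m ∈ Ico 2 n, ∑ q ∈ box e H, ∑ c1 ∈ Ioc 0 H, ∑ c0 ∈ Ioc 0 H,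
          w (uu β q c0 c1 m) * w (uu β q c0 c1 n)) := by
    have h2 : ∀ t ∈ T e H, XX β N t ^ 2 = ∑ n ∈ Icc 2 N, (w (uu β t.1 t.2.2 t.2.1 n) ^ 2 +
        2 * ∑ m ∈ Ico 2 n, w (uu β t.1 t.2.2 t.2.1 m) * w (uu β t.1 t.2.2 t.2.1 n)) := by
      intro t _
      exact sq_sum_eq _ _
    rw [sum_congr rfl h2, sum_comm]
    refine sum_congr rfl fun n _ => ?_
    have h2a : ∑ t ∈ T e H, w (uu β t.1 t.2.2 t.2.1 n) ^ 2 =
        ∑ q ∈ box e H, ∑ c1 ∈ Ioc 0 H, ∑ c0 ∈ Ioc 0 H, w (uu β q c0 c1 n) ^ 2 := sum_T _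
    have h2b : ∑ t ∈ T e H, ∑ m ∈ Ico 2 n, w (uu β t.1 t.2.2 t.2.1 m) * w (uu β t.1 t.2.2 t.2.1 n) =
        ∑ m ∈ Ico 2 n, ∑ q ∈ box e H, ∑ c1 ∈ Ioc 0 H, ∑ c0 ∈ Ioc 0 H,
          w (uu β q c0 c1 m) * w (uu β q c0 c1 n) := by
      rw [sum_comm]
      refine sum_congr rfl fun m _ => ?_
      exact sum_T _
    rw [sum_add_distrib, h2a, ← mul_sum, h2b]
  rw [h1]
  have h3 : ∀ n ∈ Icc 2 N,
      ((∑ q ∈ box e H, ∑ c1 ∈ Ioc 0 H, ∑ c0 ∈ Ioc 0 H, w (uu β q c0 c1 n) ^ 2) +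
        2 * ∑ m ∈ Ico 2 n, ∑ q ∈ box e H, ∑ c1 ∈ Ioc 0 H, ∑ c0 ∈ Ioc 0 H,
          w (uu β q c0 c1 m) * w (uu β q c0 c1 n)) ≤
      Dg + 2 * (∑ m ∈ Ico 2 n, (2 * G (e + 1) (n - m) * A + B)) := by
    intro n hn
    rw [mem_Icc] at hn
    refine add_le_add (diag_le hN hSW (hβ n hn.1 hn.2) (hXn n hn.1 hn.2)) ?_
    refine mul_le_mul_of_nonneg_left ?_ (by norm_num)
    refine sum_le_sum fun m hm => ?_
    rw [mem_Ico] at hm
    exact pair_total_le hE hSW (hXn m hm.1 (by omega)) (hXn n hn.1 hn.2) (hβ n hn.1 hn.2)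
      (by omega) hm.2 hn.2
  refine (sum_le_sum h3).trans ?_
  have h4 : ∑ n ∈ Icc 2 N, (Dg + 2 * (∑ m ∈ Ico 2 n, (2 * G (e + 1) (n - m) * A + B))) =
      (Icc 2 N).card * Dg + 4 * A * (∑ n ∈ Icc 2 N, ∑ m ∈ Ico 2 n, G (e + 1) (n - m)) +
      2 * B * (∑ n ∈ Icc 2 N, ((Ico 2 n).card : ℝ)) := by
    rw [sum_add_distrib, sum_const, nsmul_eq_mul, mul_sum, mul_sum, add_assoc, ← sum_add_distrib]
    congr 1
    refine sum_congr rfl fun n _ => ?_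
    rw [sum_add_distrib, sum_const, nsmul_eq_mul, mul_sum, mul_add, mul_sum]
    congr 1
    · exact sum_congr rfl fun m _ => by ring
    · ring
  rw [h4]
  have h5 : ((Icc 2 N).card : ℝ) ≤ N := by
    rw [Nat.card_Icc]
    exact_mod_cast (by omega : N + 1 - 2 ≤ N)
  have h6 := sum_G_pairs hκ N
  have h7 : ∑ n ∈ Icc 2 N, ((Ico 2 n).card : ℝ) ≤ (N:ℝ) ^ 2 := by
    calc ∑ n ∈ Icc 2 N, ((Ico 2 n).card : ℝ) ≤ ∑ _n ∈ Icc 2 N, (N:ℝ) := by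
          refine sum_le_sum fun n hn => ?_
          rw [mem_Icc] at hn
          rw [Nat.card_Ico]
          exact_mod_cast (by omega : n - 2 ≤ N)
      _ = (Icc 2 N).card * (N:ℝ) := by rw [sum_const, nsmul_eq_mul]
      _ ≤ N * N := mul_le_mul_of_nonneg_right h5 (Nat.cast_nonneg N)
      _ = (N:ℝ) ^ 2 := by ring
  have h8 : ((Icc 2 N).card : ℝ) * Dg ≤ N * Dg := mul_le_mul_of_nonneg_right h5 hDg0
  have h9 : 4 * A * (∑ n ∈ Icc 2 N, ∑ m ∈ Ico 2 n, G (e + 1) (n - m)) ≤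
      4 * A * (κ * (N:ℝ) ^ 2 / 2) := mul_le_mul_of_nonneg_left h6 (by positivity)
  have h10 : 2 * B * (∑ n ∈ Icc 2 N, ((Ico 2 n).card : ℝ)) ≤ 2 * B * (N:ℝ) ^ 2 :=
    mul_le_mul_of_nonneg_left h7 (by positivity)
  calc _ ≤ N * Dg + 4 * A * (κ * (N:ℝ) ^ 2 / 2) + 2 * B * (N:ℝ) ^ 2 := by linarith
    _ = _ := by ring

/-- The triples with at least `K` primes. -/
noncomputable def Good (β : ℕ → ℕ) (e H N K : ℕ) : Finset ((Fin e → ℕ) × ℕ × ℕ) :=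
  (T e H).filter (fun t => K ≤ ((Icc 2 N).filter (fun n => (uu β t.1 t.2.2 t.2.1 n).Prime)).card)

lemma mem_T {t : (Fin e → ℕ) × ℕ × ℕ} : t ∈ T e H ↔
    (t.1 ∈ box e H ∧ (0 < t.2.1 ∧ t.2.1 ≤ H) ∧ (0 < t.2.2 ∧ t.2.2 ≤ H)) := by
  unfold T
  simp [mem_product, mem_Ioc]

/-- Cauchy-Schwarz. -/
lemma good_sq_le {K : ℕ} (hN : 1 ≤ N)
    (hSW : ∀ x : ℕ, x ≤ X → ∀ M : ℕ, 1 ≤ M → M ≤ 2 * N → ∀ a : ZMod M, IsUnit a →
      |th x M a - x / M.totient| ≤ E)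
    (hβ : ∀ n, 2 ≤ n → n ≤ N → β n % 2 = 1)
    (hX : ∀ q ∈ box e H, ∀ n, 2 ≤ n → n ≤ N → al β q n + 2 * (H + H * n) ≤ X)
    (hpos : 0 ≤ ((N : ℝ) - 1) * ((H : ℝ) ^ (e + 1) * (2 * H - 2 * E)) -
      K * Real.log X * (H:ℝ) ^ (e + 2)) :
    (((N : ℝ) - 1) * ((H : ℝ) ^ (e + 1) * (2 * H - 2 * E)) -
      K * Real.log X * (H:ℝ) ^ (e + 2)) ^ 2 ≤
      ((Good β e H N K).card : ℝ) * ∑ t ∈ T e H, XX β N t ^ 2 := by
  have hlogX : 0 ≤ Real.log X := Real.log_natCast_nonneg X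
  have h1 := M1_ge hN hSW hβ hX
  have h2 : ∑ t ∈ T e H, XX β N t ≤ (∑ t ∈ Good β e H N K, XX β N t) +
      K * Real.log X * (H:ℝ) ^ (e + 2) := by
    have h3 : ∑ t ∈ T e H, XX β N t ≤ ∑ t ∈ T e H,
        ((if K ≤ ((Icc 2 N).filter (fun n => (uu β t.1 t.2.2 t.2.1 n).Prime)).card then XX β N t
          else 0) + K * Real.log X) := by
      refine sum_le_sum fun t ht => ?_
      rw [mem_T] at ht
      split_ifs with hK
      · have : 0 ≤ K * Real.log X := by positivity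
        linarith
      · push Not at hK
        rw [zero_add]
        unfold XX
        have h4 : ∑ n ∈ Icc 2 N, w (uu β t.1 t.2.2 t.2.1 n) =
            ∑ n ∈ (Icc 2 N).filter (fun n => (uu β t.1 t.2.2 t.2.1 n).Prime),
              w (uu β t.1 t.2.2 t.2.1 n) := by
          rw [sum_filter]
          refine sum_congr rfl fun n _ => ?_
          unfold w
          split_ifs <;> rfl
        rw [h4]
        calc ∑ n ∈ (Icc 2 N).filter (fun n => (uu β t.1 t.2.2 t.2.1 n).Prime),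
              w (uu β t.1 t.2.2 t.2.1 n) ≤
            ∑ _n ∈ (Icc 2 N).filter (fun n => (uu β t.1 t.2.2 t.2.1 n).Prime), Real.log X := by
              refine sum_le_sum fun n hn => ?_
              rw [mem_filter, mem_Icc] at hn
              exact w_le_log (uu_le (H := H) (hX t.1 ht.1 n hn.1.1 hn.1.2) ht.2.2.2 ht.2.1.2)
          _ = (((Icc 2 N).filter (fun n => (uu β t.1 t.2.2 t.2.1 n).Prime)).card : ℝ) *
              Real.log X := by rw [sum_const, nsmul_eq_mul]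
          _ ≤ K * Real.log X := by
              refine mul_le_mul_of_nonneg_right ?_ hlogX
              exact_mod_cast hK.le
    refine h3.trans (le_of_eq ?_)
    rw [sum_add_distrib, sum_const, card_T, nsmul_eq_mul, Good, sum_filter]
    push_cast
    ring
  have h5 : ((N : ℝ) - 1) * ((H : ℝ) ^ (e + 1) * (2 * H - 2 * E)) -
      K * Real.log X * (H:ℝ) ^ (e + 2) ≤ ∑ t ∈ Good β e H N K, XX β N t := by linarith
  calc _ ≤ (∑ t ∈ Good β e H N K, XX β N t) ^ 2 := pow_le_pow_left₀ hpos h5 2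
    _ ≤ ((Good β e H N K).card : ℝ) * ∑ t ∈ Good β e H N K, XX β N t ^ 2 := sq_sum_le_card_mul_sum_sq
    _ ≤ _ := by
      refine mul_le_mul_of_nonneg_left ?_ (Nat.cast_nonneg _)
      exact sum_le_sum_of_subset_of_nonneg (filter_subset _ _) fun _ _ _ => sq_nonneg _

end Env

end Pool.Agent.PnPoly
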