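import Pool.Agent.Lib.ANT.SW

/-!
# Uniform form of the Siegel-Walfisz theorem, sums over arithmetic progressions
-/

open Filter Topology

namespace Pool.Agent.PnPoly

/-- Chebyshev theta function in an arithmetic progression. -/
noncomputable def th (x q : ℕ) (a : ZMod q) : ℝ :=
  ∑ p ∈ (Finset.Icc 1 x).filter (fun p : ℕ => p.Prime ∧ (p : ZMod q) = a), Real.log p

/-- The prime weight. -/
noncomputable def w (u : ℕ) : ℝ := if u.Prime then Real.log u else 0

lemma w_nonneg (u : ℕ) : 0 ≤ w u := by
  unfold w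
  split_ifs with h
  · exact Real.log_nonneg (by exact_mod_cast h.one_lt.le)
  · exact le_rfl

lemma w_le_log {u X : ℕ} (h : u ≤ X) : w u ≤ Real.log X := by
  unfold w
  split_ifs with hp
  · exact Real.log_le_log (by exact_mod_cast hp.pos) (by exact_mod_cast h)
  · exact Real.log_natCast_nonneg X

lemma th_nonneg (x q : ℕ) (a : ZMod q) : 0 ≤ th x q a :=
  Finset.sum_nonneg fun p _ => Real.log_natCast_nonneg p

lemma log_pow_div_tendsto (k : ℕ) :
    Tendsto (fun H : ℕ => Real.log H ^ k / Real.sqrt H) atTop (𝓝 0) := by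
  have h1 : (fun x : ℝ => Real.log x ^ k) =o[atTop] (fun x : ℝ => x ^ (1/2 : ℝ)) := by
    have := isLittleO_log_rpow_rpow_atTop (k : ℝ) (show (0:ℝ) < 1/2 by norm_num)
    simpa using this
  have h2 := h1.tendsto_div_nhds_zero
  have h3 := h2.comp tendsto_natCast_atTop_atTop
  refine h3.congr fun H => ?_
  simp only [Function.comp_apply]
  rw [Real.sqrt_eq_rpow]

lemma tendsto_log_nat : Tendsto (fun H : ℕ => Real.log H) atTop atTop :=
  Real.tendsto_log_atTop.comp tendsto_natCast_atTop_atTop

lemma sw_uniform (D B : ℕ) : ∀ᶠ H : ℕ in atTop, ∀ x : ℕ, (x:ℝ) ≤ H * (Real.log H) ^ D →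
    ∀ q : ℕ, 1 ≤ q → (q:ℝ) ≤ (Real.log H) ^ D → ∀ a : ZMod q, IsUnit a →
    |th x q a - x / q.totient| ≤ H / (Real.log H) ^ B := by
  obtain ⟨C, hC, hth⟩ := Pool.Agent.ANT.theta_ap (2 * D + B + 1) (show (0:ℝ) < 1 by norm_num)
  have e1 : ∀ᶠ H : ℕ in atTop, C * 2 ^ (2 * D + B + 1) ≤ Real.log H :=
    tendsto_log_nat.eventually_ge_atTop _
  have e2 : ∀ᶠ H : ℕ in atTop, Real.log H ^ (D + B) / Real.sqrt H < 1 / (C + 1) :=
    (log_pow_div_tendsto (D + B)).eventually (gt_mem_nhds (by positivity))
  have e3 : ∀ᶠ H : ℕ in atTop, Real.log H ^ B / Real.sqrt H < 1 / 2 :=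
    (log_pow_div_tendsto B).eventually (gt_mem_nhds (by norm_num))
  filter_upwards [e1, e2, e3, eventually_ge_atTop 10,
    tendsto_log_nat.eventually_ge_atTop 1] with H h1 h2 h3 h10 hl1
  intro x hx q hq hqD a ha
  have : NeZero q := ⟨by omega⟩
  have hH0 : (0:ℝ) < H := by positivity
  have hH1 : (1:ℝ) ≤ H := by exact_mod_cast (by omega : 1 ≤ H)
  have hL : 0 < Real.log H := by linarith
  have hsq : 0 < Real.sqrt H := Real.sqrt_pos.mpr hH0
  have hsq1 : 1 ≤ Real.sqrt H := by
    rw [show (1:ℝ) = Real.sqrt 1 by simp]; exact Real.sqrt_le_sqrt hH1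
  have hsqsq : Real.sqrt H * Real.sqrt H = H := Real.mul_self_sqrt hH0.le
  have hq0 : (0:ℝ) < q := by exact_mod_cast hq
  have hphi : (1:ℝ) ≤ q.totient := by exact_mod_cast Nat.totient_pos.mpr hq
  rcases Nat.lt_or_ge x 3 with hx3 | hx3
  · -- small x
    have hthx : th x q a ≤ 2 := by
      have hle : th x q a ≤ Real.log 2 := by
        unfold th
        have hsub : (Finset.Icc 1 x).filter (fun p : ℕ => p.Prime ∧ (p : ZMod q) = a) ⊆ {2} := by
          intro p hp
          rw [Finset.mem_filter, Finset.mem_Icc] at hp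
          have h2 := hp.2.1.two_le
          rw [Finset.mem_singleton]; omega
        refine (Finset.sum_le_sum_of_subset_of_nonneg hsub
          (fun p _ _ => Real.log_natCast_nonneg p)).trans ?_
        simp
      linarith [Real.log_two_lt_d9]
    have hxphi : (x:ℝ) / q.totient ≤ 2 := by
      have hx2 : (x:ℝ) ≤ 2 := by exact_mod_cast (by omega : x ≤ 2)
      calc (x:ℝ) / q.totient ≤ x / 1 := by gcongr
        _ ≤ 2 := by simpa using hx2
    have hxphi0 : 0 ≤ (x:ℝ) / q.totient := by positivity
    have hge : (2:ℝ) ≤ H / Real.log H ^ B := by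
      rw [le_div_iff₀ (by positivity)]
      rw [div_lt_iff₀ hsq] at h3
      nlinarith
    have := th_nonneg x q a
    rw [abs_le]; constructor <;> linarith
  · have hx3' : (3:ℝ) ≤ x := by exact_mod_cast hx3
    have hx0 : (0:ℝ) < x := by linarith
    have hlx : 1 ≤ Real.log x := by
      rw [Real.le_log_iff_exp_le hx0]
      linarith [Real.exp_one_lt_d9]
    have hmain := hth q a ha x hx3'
    rw [Nat.floor_natCast, Real.rpow_one] at hmain
    refine (show |th x q a - x / q.totient| ≤ _ from hmain).trans ?_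
    rcases le_total (Real.sqrt H) x with hc | hc
    · have hlog : Real.log H / 2 ≤ Real.log x := by
        have h5 := Real.log_le_log hsq hc
        rwa [Real.log_sqrt hH0.le] at h5
      have h6 : (Real.log H / 2) ^ (2 * D + B + 1) ≤ Real.log x ^ (2 * D + B + 1) :=
        pow_le_pow_left₀ (by linarith) hlog _
      have h7 : 0 < (Real.log H / 2) ^ (2 * D + B + 1) := by positivity
      calc C * q * x / Real.log x ^ (2 * D + B + 1)
          ≤ C * (Real.log H) ^ D * (H * (Real.log H) ^ D) / (Real.log H / 2) ^ (2 * D + B + 1) := by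
            gcongr
        _ = (C * 2 ^ (2 * D + B + 1)) * (H / (Real.log H) ^ B) / Real.log H := by
            rw [div_pow]; field_simp; ring
        _ ≤ Real.log H * (H / (Real.log H) ^ B) / Real.log H := by gcongr
        _ = H / (Real.log H) ^ B := by field_simp
    · have h8 : (1:ℝ) ≤ Real.log x ^ (2 * D + B + 1) := one_le_pow₀ hlx
      rw [div_lt_iff₀ hsq, div_mul_eq_mul_div, one_mul, lt_div_iff₀ (by positivity)] at h2
      calc C * q * x / Real.log x ^ (2 * D + B + 1) ≤ C * q * x / 1 := by gcongr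
        _ = C * q * x := by ring
        _ ≤ C * (Real.log H) ^ D * Real.sqrt H := by gcongr
        _ = (C * (Real.log H) ^ (D + B)) * Real.sqrt H / (Real.log H) ^ B := by
            rw [pow_add]; field_simp
        _ ≤ Real.sqrt H * Real.sqrt H / (Real.log H) ^ B := by
            gcongr
            have : 0 ≤ Real.log H ^ (D + B) := by positivity
            nlinarith
        _ = H / (Real.log H) ^ B := by rw [hsqsq]

/-- The sum of the weight over an arithmetic progression. -/
lemma sum_w_ap (q y L : ℕ) (hq : 1 ≤ q) :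
    ∑ j ∈ Finset.Ioc 0 L, w (y + q * j) = th (y + q * L) q (y : ZMod q) - th y q (y : ZMod q) := by
  have h1 : th (y + q * L) q (y : ZMod q) = th y q (y : ZMod q) +
      ∑ p ∈ (Finset.Ioc y (y + q * L)).filter (fun p : ℕ => p.Prime ∧ (p : ZMod q) = y),
        Real.log p := by
    unfold th
    rw [← Finset.sum_union]
    · congr 1
      ext p
      simp only [Finset.mem_union, Finset.mem_filter, Finset.mem_Icc, Finset.mem_Ioc]
      constructor
      · rintro ⟨⟨a, b⟩, c⟩
        by_cases h : p ≤ y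
        · exact Or.inl ⟨⟨a, h⟩, c⟩
        · exact Or.inr ⟨⟨by omega, b⟩, c⟩
      · rintro (⟨⟨a, b⟩, c⟩ | ⟨⟨a, b⟩, c⟩)
        · exact ⟨⟨a, by nlinarith [Nat.zero_le (q * L)]⟩, c⟩
        · exact ⟨⟨by omega, b⟩, c⟩
    · rw [Finset.disjoint_left]
      intro p hp hp'
      simp only [Finset.mem_filter, Finset.mem_Icc, Finset.mem_Ioc] at hp hp'
      omega
  rw [h1, add_sub_cancel_left]
  have hset : (Finset.Ioc y (y + q * L)).filter (fun p : ℕ => p.Prime ∧ (p : ZMod q) = y) =
      ((Finset.Ioc 0 L).image (fun j => y + q * j)).filter Nat.Prime := by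
    ext p
    simp only [Finset.mem_filter, Finset.mem_Ioc, Finset.mem_image]
    constructor
    · rintro ⟨⟨a, b⟩, c, e⟩
      refine ⟨?_, c⟩
      have hdvd : q ∣ p - y := by
        have : (y : ZMod q) = (p : ZMod q) := e.symm
        rw [ZMod.natCast_eq_natCast_iff] at this
        exact (Nat.modEq_iff_dvd' a.le).mp this
      obtain ⟨j, hj⟩ := hdvd
      have hp : p = y + q * j := by omega
      refine ⟨j, ⟨?_, ?_⟩, hp.symm⟩
      · rcases Nat.eq_zero_or_pos j with rfl | h
        · simp at hp; omega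
        · exact h
      · by_contra h
        push Not at h
        have : q * L < q * j := Nat.mul_lt_mul_of_pos_left h (by omega)
        omega
    · rintro ⟨⟨j, ⟨a, b⟩, rfl⟩, c⟩
      refine ⟨⟨?_, ?_⟩, c, ?_⟩
      · have : 0 < q * j := Nat.mul_pos (by omega) a
        omega
      · have : q * j ≤ q * L := Nat.mul_le_mul_left q b
        omega
      · push_cast; simp
  rw [hset, Finset.sum_filter, Finset.sum_image]
  · refine Finset.sum_congr rfl fun j _ => ?_
    rfl
  · intro i _ j _ hij
    have : q * i = q * j := by simpa using hij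
    exact Nat.eq_of_mul_eq_mul_left (by omega) this

lemma sum_w_ap_Ioc (q y l h : ℕ) (hq : 1 ≤ q) (hlh : l ≤ h) :
    ∑ j ∈ Finset.Ioc l h, w (y + q * j) =
      th (y + q * h) q (y : ZMod q) - th (y + q * l) q (y : ZMod q) := by
  have h1 := sum_w_ap q (y + q * l) (h - l) hq
  have h2 : ((y + q * l : ℕ) : ZMod q) = (y : ZMod q) := by push_cast; simp
  have h3 : y + q * l + q * (h - l) = y + q * h := by
    rw [add_assoc, ← Nat.mul_add, Nat.add_sub_cancel' hlh]
  rw [h2, h3] at h1
  rw [← h1]
  have h4 : Finset.Ioc l h = (Finset.Ioc 0 (h - l)).map (addLeftEmbedding l) := by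
    rw [Finset.map_add_left_Ioc]
    congr 1; omega
  rw [h4, Finset.sum_map]
  refine Finset.sum_congr rfl fun j _ => ?_
  simp only [addLeftEmbedding_apply]
  congr 1; ring

/-- Values with a common factor with the modulus are not prime. -/
lemma w_eq_zero_of_not_coprime {q u : ℕ} (hq : 1 ≤ q) (hu : q < u) (h : ¬ Nat.Coprime u q) :
    w u = 0 := by
  unfold w
  rw [if_neg]
  intro hp
  apply h
  rw [Nat.Prime.coprime_iff_not_dvd hp]
  intro hd
  exact absurd (Nat.le_of_dvd (by omega) hd) (by omega)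

end Pool.Agent.PnPoly
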