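import Pool.Agent.PnPoly.SWU
import Pool.Agent.PnPoly.Local

/-!
# First moments and pair correlations
-/

open Finset

namespace Pool.Agent.PnPoly

/-- The `n`-th prime (`pr 1 = 2`). -/
noncomputable def pr (n : ℕ) : ℕ := Nat.nth Nat.Prime (n - 1)

lemma pr_prime (n : ℕ) : (pr n).Prime := Nat.prime_nth_prime _

lemma pr_mono {m n : ℕ} (h : m ≤ n) : pr m ≤ pr n :=
  Nat.nth_monotone Nat.infinite_setOfPred_prime (by omega)

lemma pr_one : pr 1 = 2 := by
  unfold pr
  exact Nat.nth_prime_zero_eq_two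

lemma pr_lt {m n : ℕ} (hm : 1 ≤ m) (h : m < n) : pr m < pr n :=
  Nat.nth_strictMono Nat.infinite_setOfPred_prime (by omega)

lemma pr_odd {n : ℕ} (hn : 2 ≤ n) : pr n % 2 = 1 := by
  rcases (pr_prime n).eq_two_or_odd with h | h
  · have := pr_lt (m := 1) le_rfl (show 1 < n by omega)
    rw [pr_one] at this
    omega
  · exact h

/-- The part of degree at least two. -/
def Qv {e : ℕ} (q : Fin e → ℕ) (n : ℕ) : ℕ := ∑ i, q i * n.choose (i + 2)

lemma Qv_mono {e : ℕ} (q : Fin e → ℕ) {m n : ℕ} (h : m ≤ n) : Qv q m ≤ Qv q n :=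
  sum_le_sum fun i _ => Nat.mul_le_mul_left _ (Nat.choose_le_choose _ h)

/-- `β n + 2 Q(n)`. -/
def al {e : ℕ} (β : ℕ → ℕ) (q : Fin e → ℕ) (n : ℕ) : ℕ := β n + 2 * Qv q n

/-- `β n + 2 P(n)`. -/
def uu {e : ℕ} (β : ℕ → ℕ) (q : Fin e → ℕ) (c0 c1 n : ℕ) : ℕ := al β q n + 2 * (c0 + c1 * n)

lemma th_sub_eq {y y' q : ℕ} (h : y ≤ y') (b : ZMod q) :
    th y' q b - th y q b = ∑ p ∈ Ioc y y', (if (p : ZMod q) = b then w p else 0) := by
  have h1 : th y' q b = th y q b +
      ∑ p ∈ (Ioc y y').filter (fun p : ℕ => p.Prime ∧ (p : ZMod q) = b), Real.log p := by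
    unfold th
    rw [← sum_union]
    · congr 1
      ext p
      simp only [mem_union, mem_filter, mem_Icc, mem_Ioc]
      constructor
      · rintro ⟨⟨a, b⟩, c⟩
        by_cases h : p ≤ y
        · exact Or.inl ⟨⟨a, h⟩, c⟩
        · exact Or.inr ⟨⟨by omega, b⟩, c⟩
      · rintro (⟨⟨a, b⟩, c⟩ | ⟨⟨a, b⟩, c⟩)
        · exact ⟨⟨a, b.trans h⟩, c⟩
        · exact ⟨⟨by omega, b⟩, c⟩
    · rw [disjoint_left]
      intro p hp hp'
      simp only [mem_filter, mem_Icc, mem_Ioc] at hp hp'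
      omega
  rw [h1, add_sub_cancel_left, sum_filter]
  refine sum_congr rfl fun p _ => ?_
  unfold w
  by_cases hp : p.Prime <;> by_cases hb : (p : ZMod q) = b <;> simp [hp, hb]

/-- Change of variables `s = c0 + c1 m`. -/
lemma swap_sum (H m : ℕ) (F : ℕ → ℕ → ℝ) :
    ∑ c1 ∈ Ioc 0 H, ∑ c0 ∈ Ioc 0 H, F (c0 + c1 * m) c1 =
      ∑ s ∈ Ioc 0 (H + H * m), ∑ c1 ∈ (Ioc 0 H).filter (fun c1 => c1 * m < s ∧ s ≤ c1 * m + H),
        F s c1 := by
  have h1 : ∀ c1 ∈ Ioc 0 H, ∑ c0 ∈ Ioc 0 H, F (c0 + c1 * m) c1 =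
      ∑ s ∈ Ioc 0 (H + H * m), (if c1 * m < s ∧ s ≤ c1 * m + H then F s c1 else 0) := by
    intro c1 hc1
    rw [mem_Ioc] at hc1
    rw [← sum_filter]
    symm
    refine sum_bij' (fun s _ => s - c1 * m) (fun c0 _ => c0 + c1 * m) ?_ ?_ ?_ ?_ ?_
    · intro s hs
      simp only [mem_filter, mem_Ioc] at hs ⊢
      omega
    · intro c0 hc0
      simp only [mem_filter, mem_Ioc] at hc0 ⊢
      have : c1 * m ≤ H * m := Nat.mul_le_mul_right m hc1.2
      omega
    · intro s hs
      simp only [mem_filter, mem_Ioc] at hs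
      omega
    · intro c0 _
      omega
    · intro s hs
      simp only [mem_filter, mem_Ioc] at hs
      congr 1
      omega
  rw [sum_congr rfl h1, sum_comm]
  refine sum_congr rfl fun s _ => ?_
  rw [sum_filter]

lemma filter_eq_Ioc {H m s : ℕ} (hm : 1 ≤ m) (hs : 1 ≤ s) :
    (Ioc 0 H).filter (fun c1 => c1 * m < s ∧ s ≤ c1 * m + H) =
      Ioc ((s - H - 1) / m) (min H ((s - 1) / m)) := by
  ext c
  simp only [mem_filter, mem_Ioc, le_min_iff]
  rw [Nat.le_div_iff_mul_le (by omega), Nat.div_lt_iff_lt_mul (by omega)]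
  constructor
  · rintro ⟨⟨a, b⟩, c', d⟩
    refine ⟨?_, b, by omega⟩
    have : 0 < c * m := Nat.mul_pos a (by omega)
    omega
  · rintro ⟨a, b, c'⟩
    have hc : 0 < c := by
      rcases Nat.eq_zero_or_pos c with rfl | h
      · simp at a
      · exact h
    exact ⟨⟨hc, b⟩, by omega, by omega⟩

section Env

variable {e H N X : ℕ} {E : ℝ} {β : ℕ → ℕ}

/-- First moment for fixed `n`, `c1`. -/
lemma first_sum (hN : 1 ≤ N)
    (hSW : ∀ x : ℕ, x ≤ X → ∀ M : ℕ, 1 ≤ M → M ≤ 2 * N → ∀ a : ZMod M, IsUnit a →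
      |th x M a - x / M.totient| ≤ E)
    {q : Fin e → ℕ} {n c1 : ℕ} (hX : al β q n + 2 * (H + H * n) ≤ X)
    (hβ : β n % 2 = 1) (hc1 : c1 ≤ H) :
    |∑ c0 ∈ Ioc 0 H, w (uu β q c0 c1 n) - 2 * H| ≤ 2 * E := by
  set y := al β q n + 2 * (c1 * n) with hy
  have h1 : ∑ c0 ∈ Ioc 0 H, w (uu β q c0 c1 n) = ∑ j ∈ Ioc 0 H, w (y + 2 * j) := by
    refine sum_congr rfl fun c0 _ => ?_
    congr 1
    unfold uu
    rw [hy]; ring
  rw [h1, sum_w_ap 2 y H (by norm_num)]
  have hodd : y % 2 = 1 := by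
    rw [hy]; unfold al
    omega
  have hunit : IsUnit (y : ZMod 2) := by
    rw [ZMod.isUnit_iff_coprime, Nat.coprime_two_right]
    exact Nat.odd_iff.mpr hodd
  have hc1n : c1 * n ≤ H * n := Nat.mul_le_mul_right n hc1
  have e1 := hSW (y + 2 * H) (by omega) 2 (by norm_num) (by omega) (y : ZMod 2) hunit
  have e2 := hSW y (by omega) 2 (by norm_num) (by omega) (y : ZMod 2) hunit
  rw [Nat.totient_two] at e1 e2
  push_cast at e1 e2
  rw [div_one] at e1 e2
  rw [abs_le] at e1 e2 ⊢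
  constructor <;> linarith [e1.1, e1.2, e2.1, e2.2]

/-- The inner sum of the pair correlation. -/
lemma inner_le (hE : 0 ≤ E)
    (hSW : ∀ x : ℕ, x ≤ X → ∀ M : ℕ, 1 ≤ M → M ≤ 2 * N → ∀ a : ZMod M, IsUnit a →
      |th x M a - x / M.totient| ≤ E)
    {q : Fin e → ℕ} {m n s : ℕ} (hX : al β q n + 2 * (H + H * n) ≤ X)
    (hβ : β n % 2 = 1) (hm : 1 ≤ m) (hmn : m < n) (hn : n ≤ N) (hs : 1 ≤ s) :
    ∑ c1 ∈ (Ioc 0 H).filter (fun c1 => c1 * m < s ∧ s ≤ c1 * m + H),
      w (al β q n + 2 * s + 2 * (n - m) * c1) ≤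
      if Nat.Coprime (al β q n + 2 * s) (2 * (n - m)) then
        ((2 * (n - m) : ℕ) : ℝ) / ((2 * (n - m)).totient : ℝ) *
          ((Ioc 0 H).filter (fun c1 => c1 * m < s ∧ s ≤ c1 * m + H)).card + 2 * E
      else 0 := by
  set M := 2 * (n - m) with hM
  have hM1 : 1 ≤ M := by omega
  have hphi : (0:ℝ) < M.totient := by exact_mod_cast Nat.totient_pos.mpr hM1
  split_ifs with hcop
  · rw [filter_eq_Ioc hm hs]
    set l := (s - H - 1) / m
    set h := min H ((s - 1) / m) with hh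
    rcases Nat.lt_or_ge l h with hlh | hlh
    · rw [sum_w_ap_Ioc M _ l h hM1 hlh.le]
      have hunit : IsUnit ((al β q n + 2 * s : ℕ) : ZMod M) :=
        (ZMod.isUnit_iff_coprime _ _).mpr hcop
      have hmem : h ∈ (Ioc 0 H).filter (fun c1 => c1 * m < s ∧ s ≤ c1 * m + H) := by
        rw [filter_eq_Ioc hm hs]; exact mem_Ioc.mpr ⟨hlh, le_rfl⟩
      simp only [mem_filter, mem_Ioc] at hmem
      have hle : al β q n + 2 * s + M * h ≤ X := by
        have h1 : M * h + 2 * (h * m) = 2 * (h * n) := by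
          rw [hM]
          have : n = (n - m) + m := by omega
          conv_rhs => rw [this]
          ring
        have h2 : h * n ≤ H * n := Nat.mul_le_mul_right n hmem.1.2
        omega
      have hle2 : al β q n + 2 * s + M * l ≤ X := by
        have : M * l ≤ M * h := Nat.mul_le_mul_left M hlh.le
        omega
      have e1 := hSW _ hle M hM1 (by omega) _ hunit
      have e2 := hSW _ hle2 M hM1 (by omega) _ hunit
      rw [abs_le] at e1 e2
      have hcard : (((Ioc l h).card : ℕ) : ℝ) = (h:ℝ) - l := by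
        rw [Nat.card_Ioc, Nat.cast_sub hlh.le]
      rw [hcard]
      have e3 : ((al β q n + 2 * s + M * h : ℕ) : ℝ) / M.totient -
          ((al β q n + 2 * s + M * l : ℕ) : ℝ) / M.totient =
          (M : ℝ) / M.totient * ((h:ℝ) - l) := by
        push_cast; ring
      linarith [e1.2, e2.1]
    · rw [Ioc_eq_empty_of_le hlh]
      simp only [sum_empty, card_empty, Nat.cast_zero, mul_zero, zero_add]
      positivity
  · refine le_of_eq (sum_eq_zero fun c1 hc1 => ?_)
    simp only [mem_filter, mem_Ioc] at hc1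
    refine w_eq_zero_of_not_coprime hM1 ?_ ?_
    · have h1 : M ≤ M * c1 := Nat.le_mul_of_pos_right M hc1.1.1
      unfold al
      omega
    · intro h
      apply hcop
      have : al β q n + 2 * s + M * c1 = (al β q n + 2 * s) + c1 * M := by ring
      rw [this] at h
      exact (Nat.coprime_add_mul_right_left _ _ _).mp h

/-- Pair correlation for a fixed higher part. -/
lemma pair_le (hE : 0 ≤ E)
    (hSW : ∀ x : ℕ, x ≤ X → ∀ M : ℕ, 1 ≤ M → M ≤ 2 * N → ∀ a : ZMod M, IsUnit a →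
      |th x M a - x / M.totient| ≤ E)
    {q : Fin e → ℕ} {m n : ℕ} (hXm : al β q m + 2 * (H + H * m) ≤ X)
    (hX : al β q n + 2 * (H + H * n) ≤ X)
    (hβ : β n % 2 = 1) (hm : 1 ≤ m) (hmn : m < n) (hn : n ≤ N) :
    ∑ c1 ∈ Ioc 0 H, ∑ c0 ∈ Ioc 0 H, w (uu β q c0 c1 m) * w (uu β q c0 c1 n) ≤
      ((2 * (n - m) : ℕ) : ℝ) / ((2 * (n - m)).totient : ℝ) *
        (∑ c1 ∈ Ioc 0 H, ∑ c0 ∈ Ioc 0 H,
          (if Nat.Coprime (al β q n + 2 * (c0 + c1 * m)) (2 * (n - m)) then
            w (al β q m + 2 * (c0 + c1 * m)) else 0)) +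
      2 * E * ((H + H * m : ℕ) : ℝ) * Real.log X := by
  set M := 2 * (n - m) with hM
  have hM1 : 1 ≤ M := by omega
  have hphi : (0:ℝ) < M.totient := by exact_mod_cast Nat.totient_pos.mpr hM1
  have h1 : ∑ c1 ∈ Ioc 0 H, ∑ c0 ∈ Ioc 0 H, w (uu β q c0 c1 m) * w (uu β q c0 c1 n) =
      ∑ c1 ∈ Ioc 0 H, ∑ c0 ∈ Ioc 0 H,
        (fun s c1 => w (al β q m + 2 * s) * w (al β q n + 2 * s + M * c1)) (c0 + c1 * m) c1 := by
    refine sum_congr rfl fun c1 _ => sum_congr rfl fun c0 _ => ?_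
    simp only
    congr 2
    unfold uu
    have : n = (n - m) + m := by omega
    have h2 : M * c1 + 2 * (c1 * m) = 2 * (c1 * n) := by
      rw [hM]
      conv_rhs => rw [this]
      ring
    omega
  have h1' := swap_sum H m (fun s c1 => w (al β q m + 2 * s) * w (al β q n + 2 * s + M * c1))
  rw [h1, h1']
  have h2 : ∑ c1 ∈ Ioc 0 H, ∑ c0 ∈ Ioc 0 H,
          (if Nat.Coprime (al β q n + 2 * (c0 + c1 * m)) M then
            w (al β q m + 2 * (c0 + c1 * m)) else 0) =
      ∑ s ∈ Ioc 0 (H + H * m), ∑ c1 ∈ (Ioc 0 H).filter (fun c1 => c1 * m < s ∧ s ≤ c1 * m + H),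
        (if Nat.Coprime (al β q n + 2 * s) M then w (al β q m + 2 * s) else 0) :=
    swap_sum H m (fun s _ => if Nat.Coprime (al β q n + 2 * s) M then w (al β q m + 2 * s) else 0)
  rw [h2, mul_sum]
  have h3 : 2 * E * ((H + H * m : ℕ) : ℝ) * Real.log X =
      ∑ _s ∈ Ioc 0 (H + H * m), 2 * E * Real.log X := by
    rw [sum_const, Nat.card_Ioc, nsmul_eq_mul]
    simp only [Nat.sub_zero]
    ring
  rw [h3, ← sum_add_distrib]
  refine sum_le_sum fun s hs => ?_
  rw [mem_Ioc] at hs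
  rw [← mul_sum]
  have hinner := inner_le (q := q) (s := s) hE hSW hX hβ hm hmn hn hs.1
  have hw0 := w_nonneg (al β q m + 2 * s)
  have hwX : w (al β q m + 2 * s) ≤ Real.log X := by
    refine w_le_log ?_
    omega
  refine (mul_le_mul_of_nonneg_left hinner hw0).trans ?_
  rw [sum_const, nsmul_eq_mul]
  have hlogX : 0 ≤ Real.log X := Real.log_natCast_nonneg X
  split_ifs with hcop
  · have : w (al β q m + 2 * s) * (2 * E) ≤ 2 * E * Real.log X := by nlinarith
    nlinarith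
  · have : 0 ≤ 2 * E * Real.log X := by positivity
    simpa using this

/-- Number of residues `b` with `b` and `b + δ` units. -/
noncomputable def rho (M : ℕ) [NeZero M] (δ : ZMod M) : ℕ :=
  (univ.filter (fun b : ZMod M => IsUnit b ∧ IsUnit (b + δ))).card

lemma sum_primeFactors_log_le {M : ℕ} (hM : M ≠ 0) :
    ∑ p ∈ M.primeFactors, Real.log p ≤ Real.log M := by
  rw [← Real.log_prod (fun p hp => by
    have := (Nat.prime_of_mem_primeFactors hp).pos
    positivity)]
  refine Real.log_le_log (prod_pos fun p hp => by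
    exact_mod_cast (Nat.prime_of_mem_primeFactors hp).pos) ?_
  have h1 := Nat.le_of_dvd (Nat.pos_of_ne_zero hM) (Nat.prod_primeFactors_dvd M)
  have h2 : ((∏ p ∈ M.primeFactors, p : ℕ) : ℝ) ≤ (M : ℝ) := by exact_mod_cast h1
  rw [Nat.cast_prod] at h2
  exact h2

lemma sum_image_le {y H : ℕ} {g : ℕ → ℝ} (hg : ∀ p, 0 ≤ g p) :
    ∑ c0 ∈ Ioc 0 H, g (y + 2 * c0) ≤ ∑ p ∈ Ioc y (y + 2 * H), g p := by
  have h1 : ∑ c0 ∈ Ioc 0 H, g (y + 2 * c0) = ∑ p ∈ (Ioc 0 H).image (fun c0 => y + 2 * c0), g p := by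
    rw [sum_image]
    intro a _ b _ h
    have : y + 2 * a = y + 2 * b := h
    omega
  rw [h1]
  refine sum_le_sum_of_subset_of_nonneg ?_ fun p _ _ => hg p
  intro p hp
  simp only [mem_image, mem_Ioc] at hp ⊢
  omega

/-- Primes in residue classes avoiding a second class. -/
lemma unit_sum_le
    (hSW : ∀ x : ℕ, x ≤ X → ∀ M : ℕ, 1 ≤ M → M ≤ 2 * N → ∀ a : ZMod M, IsUnit a →
      |th x M a - x / M.totient| ≤ E)
    {q : Fin e → ℕ} {m n c1 : ℕ} [NeZero (2 * (n - m))] (hXm : al β q m + 2 * (H + H * m) ≤ X)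
    (hmn : m < n) (hn : n ≤ N) (hc1 : c1 ≤ H) :
    ∑ c0 ∈ Ioc 0 H, (if Nat.Coprime (al β q n + 2 * (c0 + c1 * m)) (2 * (n - m)) then
            w (al β q m + 2 * (c0 + c1 * m)) else 0) ≤
      (rho (2 * (n - m)) ((al β q n : ZMod (2 * (n - m))) - (al β q m : ZMod (2 * (n - m)))) : ℝ) *
        (2 * H / ((2 * (n - m)).totient : ℝ) + 2 * E) + Real.log ((2 * (n - m) : ℕ) : ℝ) := by
  set M := 2 * (n - m) with hM
  have hM1 : 1 ≤ M := by omega
  set y := al β q m + 2 * (c1 * m) with hy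
  set δ : ZMod M := (al β q n : ZMod M) - (al β q m : ZMod M) with hδ
  have hpoint : ∀ c0 ∈ Ioc 0 H, (if Nat.Coprime (al β q n + 2 * (c0 + c1 * m)) M then
            w (al β q m + 2 * (c0 + c1 * m)) else 0) ≤
      (∑ b ∈ univ.filter (fun b : ZMod M => IsUnit b ∧ IsUnit (b + δ)),
        (if ((y + 2 * c0 : ℕ) : ZMod M) = b then w (y + 2 * c0) else 0)) +
      (if ¬ Nat.Coprime (y + 2 * c0) M then w (y + 2 * c0) else 0) := by
    intro c0 _
    have hyu : al β q m + 2 * (c0 + c1 * m) = y + 2 * c0 := by rw [hy]; ring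
    rw [hyu]
    have hs0 : 0 ≤ ∑ b ∈ univ.filter (fun b : ZMod M => IsUnit b ∧ IsUnit (b + δ)),
        (if ((y + 2 * c0 : ℕ) : ZMod M) = b then w (y + 2 * c0) else 0) :=
      sum_nonneg fun b _ => by split_ifs; exact w_nonneg _; exact le_rfl
    by_cases hcop2 : Nat.Coprime (y + 2 * c0) M
    · rw [if_neg (show ¬ ¬ Nat.Coprime (y + 2 * c0) M from not_not_intro hcop2), add_zero]
      split_ifs with hcop
      · have hmem : ((y + 2 * c0 : ℕ) : ZMod M) ∈
            univ.filter (fun b : ZMod M => IsUnit b ∧ IsUnit (b + δ)) := by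
          rw [mem_filter]
          refine ⟨mem_univ _, (ZMod.isUnit_iff_coprime _ _).mpr hcop2, ?_⟩
          have : ((y + 2 * c0 : ℕ) : ZMod M) + δ = ((al β q n + 2 * (c0 + c1 * m) : ℕ) : ZMod M) := by
            rw [hδ, hy]; push_cast; ring
          rw [this]
          exact (ZMod.isUnit_iff_coprime _ _).mpr hcop
        have := single_le_sum (f := fun b : ZMod M =>
          (if ((y + 2 * c0 : ℕ) : ZMod M) = b then w (y + 2 * c0) else 0))
          (fun b _ => by split_ifs; exact w_nonneg _; exact le_rfl) hmem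
        simpa using this
      · exact hs0
    · rw [if_pos hcop2]
      have h0 := w_nonneg (y + 2 * c0)
      split_ifs
      · linarith
      · linarith
  refine (sum_le_sum hpoint).trans ?_
  rw [sum_add_distrib, sum_comm]
  refine add_le_add ?_ ?_
  · have hterm : ∀ b ∈ univ.filter (fun b : ZMod M => IsUnit b ∧ IsUnit (b + δ)),
        ∑ c0 ∈ Ioc 0 H, (if ((y + 2 * c0 : ℕ) : ZMod M) = b then w (y + 2 * c0) else 0) ≤
          2 * H / (M.totient : ℝ) + 2 * E := by
      intro b hb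
      rw [mem_filter] at hb
      refine (sum_image_le (g := fun p : ℕ => if (p : ZMod M) = b then w p else 0)
        (fun p => by
          show 0 ≤ (if (p : ZMod M) = b then w p else 0)
          split_ifs
          · exact w_nonneg _
          · exact le_rfl)).trans ?_
      rw [← th_sub_eq (by omega)]
      have hle : y + 2 * H ≤ X := by
        have h5 : c1 * m ≤ H * m := Nat.mul_le_mul_right m hc1
        omega
      have e1 := hSW (y + 2 * H) hle M hM1 (by omega) b hb.2.1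
      have e2 := hSW y (by omega) M hM1 (by omega) b hb.2.1
      rw [abs_le] at e1 e2
      have e3 : ((y + 2 * H : ℕ) : ℝ) / M.totient - (y : ℝ) / M.totient =
          2 * H / (M.totient : ℝ) := by push_cast; ring
      linarith [e1.2, e2.1]
    refine (sum_le_sum hterm).trans ?_
    rw [sum_const, nsmul_eq_mul]
    exact le_rfl
  · refine (sum_image_le (g := fun p : ℕ => if ¬ Nat.Coprime p M then w p else 0)
        (fun p => by
          show 0 ≤ (if ¬ Nat.Coprime p M then w p else 0)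
          split_ifs
          · exact le_rfl
          · exact w_nonneg _)).trans ?_
    refine le_trans ?_ (sum_primeFactors_log_le (M := M) (by omega))
    rw [← sum_filter]
    have : ∑ p ∈ (Ioc y (y + 2 * H)).filter (fun p => ¬ Nat.Coprime p M), w p =
        ∑ p ∈ ((Ioc y (y + 2 * H)).filter (fun p => ¬ Nat.Coprime p M)).filter Nat.Prime,
          Real.log p := by
      rw [sum_filter (p := Nat.Prime)]
      refine sum_congr rfl fun p _ => ?_
      rfl
    rw [this]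
    refine sum_le_sum_of_subset_of_nonneg ?_ fun p _ _ => Real.log_natCast_nonneg p
    intro p hp
    simp only [mem_filter] at hp
    rw [Nat.mem_primeFactors]
    refine ⟨hp.2, ?_, by omega⟩
    by_contra hnd
    exact hp.1.2 ((Nat.Prime.coprime_iff_not_dvd hp.2).mpr hnd)

end Env

end Pool.Agent.PnPoly
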