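import Pool.Agent.PnPoly.Main

/-!
# Integer-valued polynomials
-/

open Finset Filter Topology Polynomial

namespace Pool.Agent.PnPoly

/-- The binomial polynomial `binom(x,k)`. -/
noncomputable def binPoly (k : ℕ) : Polynomial ℚ :=
  Polynomial.C ((k.factorial : ℚ)⁻¹) * descPochhammer ℚ k

/-- The polynomial `∑_{k ≤ d} c_k binom(x,k)`. -/
noncomputable def polyOf {d : ℕ} (c : Fin (d + 1) → ℕ) : Polynomial ℚ :=
  ∑ k : Fin (d + 1), Polynomial.C (c k : ℚ) * binPoly k

/-- Integer-valued with positive leading coefficient. -/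
def Admissible (P : Polynomial ℚ) : Prop :=
  (∀ m : ℤ, ∃ k : ℤ, P.eval (m : ℚ) = (k : ℚ)) ∧ 0 < P.leadingCoeff

/-- At least `K` indices `0 < n ≤ y` with `p_n + 2 P(n)` prime. -/
def ManyPrimes (P : Polynomial ℚ) (y : ℝ) (K : ℕ) : Prop :=
  K ≤ {n : ℕ | 0 < n ∧ (n : ℝ) ≤ y ∧ ∃ q : ℕ, q.Prime ∧
        (q : ℚ) = ((Nat.nth Nat.Prime (n - 1) : ℕ) : ℚ) + 2 * P.eval (n : ℚ)}.ncard

lemma binPoly_eval_nat (k n : ℕ) : (binPoly k).eval (n : ℚ) = (n.choose k : ℚ) := by
  unfold binPoly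
  rw [eval_mul, eval_C, descPochhammer_eval_eq_descFactorial, Nat.descFactorial_eq_factorial_mul_choose]
  push_cast
  have : (k.factorial : ℚ) ≠ 0 := by exact_mod_cast k.factorial_ne_zero
  field_simp

lemma binPoly_eval_int (k : ℕ) (m : ℤ) : ∃ j : ℤ, (binPoly k).eval (m : ℚ) = (j : ℚ) := by
  refine ⟨Ring.choose m k, ?_⟩
  unfold binPoly
  rw [eval_mul, eval_C]
  have h1 : (descPochhammer ℚ k).eval (m : ℚ) = (((descPochhammer ℤ k).eval m : ℤ) : ℚ) := by
    rw [← descPochhammer_map (Int.castRingHom ℚ) k, Polynomial.eval_intCast_map]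
    simp
  have h2 : (descPochhammer ℤ k).eval m = k.factorial * Ring.choose m k := by
    have := Ring.descPochhammer_eq_factorial_smul_choose m k
    rw [← Polynomial.eval_eq_smeval] at this
    rw [this]
    simp
  rw [h1, h2]
  push_cast
  have : (k.factorial : ℚ) ≠ 0 := by exact_mod_cast k.factorial_ne_zero
  field_simp

lemma polyOf_eval_nat {d : ℕ} (c : Fin (d + 1) → ℕ) (n : ℕ) :
    (polyOf c).eval (n : ℚ) = ((∑ k : Fin (d + 1), c k * n.choose k : ℕ) : ℚ) := by
  unfold polyOf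
  rw [eval_finsetSum]
  push_cast
  refine sum_congr rfl fun k _ => ?_
  rw [eval_mul, eval_C, binPoly_eval_nat]

lemma natDegree_binPoly_le (k : ℕ) : (binPoly k).natDegree ≤ k := by
  unfold binPoly
  refine (natDegree_C_mul_le _ _).trans ?_
  exact (descPochhammer_natDegree ℚ k).le

lemma coeff_binPoly (k : ℕ) : (binPoly k).coeff k = (k.factorial : ℚ)⁻¹ := by
  unfold binPoly
  rw [coeff_C_mul]
  have h := monic_descPochhammer ℚ k
  have h2 := descPochhammer_natDegree ℚ k
  have : (descPochhammer ℚ k).coeff k = 1 := by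
    rw [Monic, leadingCoeff, h2] at h
    exact h
  rw [this, mul_one]

lemma polyOf_admissible {d : ℕ} (c : Fin (d + 1) → ℕ) (hc : ∀ k, 1 ≤ c k) :
    Admissible (polyOf c) ∧ (polyOf c).natDegree = d := by
  have hle : (polyOf c).natDegree ≤ d := by
    unfold polyOf
    refine natDegree_sum_le_of_forall_le _ _ fun k _ => ?_
    refine (natDegree_C_mul_le _ _).trans ((natDegree_binPoly_le _).trans ?_)
    have := k.2
    omega
  have hcoeff : (polyOf c).coeff d = (c (Fin.last d) : ℚ) * (d.factorial : ℚ)⁻¹ := by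
    unfold polyOf
    rw [finsetSum_coeff, Fin.sum_univ_castSucc]
    rw [sum_eq_zero, zero_add, coeff_C_mul, Fin.val_last, coeff_binPoly]
    intro k _
    rw [coeff_C_mul, coeff_eq_zero_of_natDegree_lt, mul_zero]
    refine (natDegree_binPoly_le _).trans_lt ?_
    simp
  have hpos : 0 < (polyOf c).coeff d := by
    rw [hcoeff]
    have h1 : (0:ℚ) < c (Fin.last d) := by exact_mod_cast hc _
    have h2 : (0:ℚ) < (d.factorial : ℚ) := by exact_mod_cast d.factorial_pos
    positivity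
  have hdeg : (polyOf c).natDegree = d :=
    le_antisymm hle (le_natDegree_of_ne_zero hpos.ne')
  refine ⟨⟨fun m => ?_, ?_⟩, hdeg⟩
  · choose j hj using fun k : ℕ => binPoly_eval_int k m
    refine ⟨∑ k : Fin (d + 1), (c k : ℤ) * j k, ?_⟩
    unfold polyOf
    rw [eval_finsetSum]
    push_cast
    refine sum_congr rfl fun k _ => ?_
    rw [eval_mul, eval_C, hj]
  · rw [leadingCoeff, hdeg]; exact hpos

lemma linear_admissible {Q : Polynomial ℚ} (hQ : ∀ m : ℤ, ∃ k : ℤ, Q.eval (m : ℚ) = (k : ℚ))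
    (hlc : 0 ≤ Q.leadingCoeff) {a b : ℕ} (ha : 1 ≤ a) :
    Admissible (Q + (Polynomial.C (a : ℚ) * Polynomial.X + Polynomial.C (b : ℚ))) := by
  constructor
  · intro m
    obtain ⟨k, hk⟩ := hQ m
    refine ⟨k + (a * m + b), ?_⟩
    simp [hk]
  · have hane : (a : ℚ) ≠ 0 := by exact_mod_cast (by omega : a ≠ 0)
    have hdegl : (Polynomial.C (a : ℚ) * Polynomial.X + Polynomial.C (b : ℚ)).degree = 1 :=
      degree_linear hane
    have hlcl : (Polynomial.C (a : ℚ) * Polynomial.X + Polynomial.C (b : ℚ)).leadingCoeff =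
        (a : ℚ) := leadingCoeff_linear hane
    have hapos : (0:ℚ) < a := by exact_mod_cast ha
    rcases lt_trichotomy Q.degree 1 with h | h | h
    · rw [leadingCoeff_add_of_degree_lt (by rw [hdegl]; exact h), hlcl]
      exact hapos
    · have hne : Q.leadingCoeff +
          (Polynomial.C (a : ℚ) * Polynomial.X + Polynomial.C (b : ℚ)).leadingCoeff ≠ 0 := by
        rw [hlcl]; positivity
      rw [leadingCoeff_add_of_degree_eq (by rw [hdegl]; exact h) hne, hlcl]
      positivity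
    · rw [leadingCoeff_add_of_degree_lt' (by rw [hdegl]; exact h)]
      have : Q ≠ 0 := by
        rintro rfl
        simp at h
      exact lt_of_le_of_ne hlc (Ne.symm (leadingCoeff_ne_zero.mpr this))

/-- The primes are small. -/
lemma pr_eventually {C : ℝ} (hC : 0 ≤ C) : ∀ᶠ H : ℕ in atTop,
    ∀ n, n ≤ ⌊C * Real.log H⌋₊ → pr n ≤ H := by
  have e1 : ∀ᶠ H : ℕ in atTop, C * (Real.log H ^ 2 / (H:ℝ)) ≤ 1 / 2 := by
    have := log_sq_div_tendsto.const_mul C
    rw [mul_zero] at this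
    exact this.eventually_le_const (by norm_num)
  filter_upwards [sw_uniform 0 3, e1, tendsto_log_nat.eventually_ge_atTop 2,
    eventually_ge_atTop 2] with H hsw h1 hL hH2
  set L := Real.log H with hLdef
  set N := ⌊C * L⌋₊ with hN
  have hH0 : (0:ℝ) < H := by positivity
  have hNle : (N:ℝ) ≤ C * L := Nat.floor_le (by positivity)
  have hcount : N ≤ Nat.count Nat.Prime (H + 1) := by
    have h2 := hsw H (by simp) 1 le_rfl (by simp) 0 (by
      rw [show (0 : ZMod 1) = 1 from Subsingleton.elim _ _]; exact isUnit_one)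
    rw [Nat.totient_one, Nat.cast_one, div_one] at h2
    have h3 := th_one_le H 0
    have h4 := (abs_le.mp h2).1
    have h5 : (H:ℝ) / L ^ 3 ≤ H / 2 := by
      have : 2 ≤ L ^ 3 := by nlinarith [sq_nonneg L]
      gcongr
    have h6 : (H:ℝ) / 2 ≤ (Nat.count Nat.Prime (H + 1) : ℝ) * L := by
      rw [hLdef]; rw [hLdef] at h5; linarith
    have h7 : (N:ℝ) * L ≤ H / 2 := by
      have h8 : C * L ^ 2 ≤ H / 2 := by
        rw [← mul_div_assoc, div_le_iff₀ hH0] at h1
        linarith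
      nlinarith
    have h9 : (N:ℝ) * L ≤ (Nat.count Nat.Prime (H + 1) : ℝ) * L := h7.trans h6
    have h10 := le_of_mul_le_mul_right h9 (by linarith)
    exact_mod_cast h10
  intro n hn
  rcases Nat.eq_zero_or_pos n with rfl | hn0
  · have : pr 0 = 2 := by
      unfold pr
      exact Nat.nth_prime_zero_eq_two
    omega
  · exact pr_le_of_count hn0 (hn.trans hcount)

/-- Polynomial values at small arguments are small. -/
lemma poly_eventually (Q : Polynomial ℚ) {C : ℝ} (hC : 0 ≤ C) : ∀ᶠ H : ℕ in atTop,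
    ∀ n, n ≤ ⌊C * Real.log H⌋₊ → ((Q.eval (n : ℚ) : ℚ) : ℝ) ≤ H := by
  set k := Q.natDegree with hk
  set M : ℝ := ∑ i ∈ range (k + 1), |((Q.coeff i : ℚ) : ℝ)| with hM
  have hM0 : 0 ≤ M := sum_nonneg fun _ _ => abs_nonneg _
  have hbound : ∀ n : ℕ, ∀ y : ℝ, (n:ℝ) ≤ y → 1 ≤ y → ((Q.eval (n : ℚ) : ℚ) : ℝ) ≤ M * y ^ k := by
    intro n y hny hy
    rw [eval_eq_sum_range]
    push_cast
    rw [hM, sum_mul]
    refine sum_le_sum fun i hi => ?_
    rw [mem_range] at hi
    have h1 : (n:ℝ) ^ i ≤ y ^ k := (pow_le_pow_left₀ (Nat.cast_nonneg n) hny i).trans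
      (pow_le_pow_right₀ hy (by omega))
    have h2 : (0:ℝ) ≤ (n:ℝ) ^ i := by positivity
    calc ((Q.coeff i : ℚ) : ℝ) * (n:ℝ) ^ i ≤ |((Q.coeff i : ℚ) : ℝ)| * (n:ℝ) ^ i :=
          mul_le_mul_of_nonneg_right (le_abs_self _) h2
      _ ≤ |((Q.coeff i : ℚ) : ℝ)| * y ^ k := mul_le_mul_of_nonneg_left h1 (abs_nonneg _)
  have e1 : ∀ᶠ H : ℕ in atTop, M * (C + 1) ^ k * (Real.log H ^ k / Real.sqrt H) ≤ 1 := by
    have := (log_pow_div_tendsto k).const_mul (M * (C + 1) ^ k)
    rw [mul_zero] at this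
    exact this.eventually_le_const (by norm_num)
  filter_upwards [e1, tendsto_log_nat.eventually_ge_atTop 1, eventually_ge_atTop 1]
    with H h1 hL hH n hn
  have hH1 : (1:ℝ) ≤ H := by exact_mod_cast hH
  have hH0 : (0:ℝ) < H := by linarith
  have hsq : 0 < Real.sqrt H := Real.sqrt_pos.mpr hH0
  have hn' : (n:ℝ) ≤ (C + 1) * Real.log H := by
    have h2 : (n:ℝ) ≤ (⌊C * Real.log H⌋₊ : ℝ) := by exact_mod_cast hn
    have h3 : (⌊C * Real.log H⌋₊ : ℝ) ≤ C * Real.log H := Nat.floor_le (by positivity)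
    nlinarith
  have h4 := hbound n _ hn' (by nlinarith)
  refine h4.trans ?_
  rw [mul_pow, ← mul_assoc]
  rw [← mul_div_assoc, div_le_one hsq] at h1
  refine h1.trans ?_
  have : Real.sqrt H ≤ Real.sqrt H * Real.sqrt H := by
    have : 1 ≤ Real.sqrt H := by
      rw [show (1:ℝ) = Real.sqrt 1 by simp]; exact Real.sqrt_le_sqrt hH1
    nlinarith
  rwa [Real.mul_self_sqrt hH0.le] at this

/-- Negative values occur finitely often. -/
lemma finite_neg {Q : Polynomial ℚ} (hlc : 0 ≤ Q.leadingCoeff) :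
    {n : ℕ | Q.eval (n : ℚ) < 0}.Finite := by
  by_cases hdeg : 0 < Q.degree
  · have h1 := Polynomial.tendsto_atTop_of_leadingCoeff_nonneg Q hdeg hlc
    have h2 : Tendsto (fun n : ℕ => Q.eval (n : ℚ)) atTop atTop :=
      h1.comp tendsto_natCast_atTop_atTop
    have h3 := h2.eventually_ge_atTop 0
    rw [eventually_atTop] at h3
    obtain ⟨n0, hn0⟩ := h3
    refine (Set.finite_lt_nat n0).subset fun n hn => ?_
    by_contra hlt
    have : n0 ≤ n := by
      simpa using hlt
    exact absurd (hn0 n this) (not_le.mpr hn)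
  · have h1 : Q = Polynomial.C (Q.coeff 0) := Polynomial.eq_C_of_degree_le_zero (not_lt.mp hdeg)
    have h2 : 0 ≤ Q.coeff 0 := by
      rw [h1, leadingCoeff_C] at hlc
      exact hlc
    have : {n : ℕ | Q.eval (n : ℚ) < 0} = ∅ := by
      ext n
      simp only [Set.mem_ofPred_eq, Set.mem_empty_iff_false, iff_false, not_lt]
      rw [h1, eval_C]
      exact h2
    rw [this]
    exact Set.finite_empty

end Pool.Agent.PnPoly
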