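import Pool.Agent.PnPoly.Pairs
import Pool.Agent.PnPoly.Gsum

/-!
# Averaging over the higher coefficients
-/

open Finset

namespace Pool.Agent.PnPoly

/-- The box for the coefficients of degree at least two. -/
def box (e H : ℕ) : Finset (Fin e → ℕ) := Fintype.piFinset fun _ : Fin e => Icc 1 H

lemma card_box (e H : ℕ) : (box e H).card = H ^ e := by
  unfold box
  rw [Fintype.card_piFinset]
  simp

lemma card_units_filter (M : ℕ) [NeZero M] :
    (univ.filter (fun y : ZMod M => IsUnit y)).card = M.totient := by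
  rw [← ZMod.card_units_eq_totient, ← card_univ]
  symm
  refine card_bij (fun u _ => (u : ZMod M)) ?_ ?_ ?_
  · intro u _
    simp
  · intro u _ v _ h
    exact Units.ext h
  · intro b hb
    rw [mem_filter] at hb
    obtain ⟨u, hu⟩ := hb.2
    exact ⟨u, mem_univ _, hu⟩

lemma sum_rho_le {e H N m n : ℕ} {β : ℕ → ℕ} (hmn : m < n) (hn : n ≤ N) [NeZero (2 * (n - m))] :
    ∑ q ∈ box e H,
      (rho (2 * (n - m)) ((al β q n : ZMod (2 * (n - m))) - (al β q m : ZMod (2 * (n - m)))) : ℝ) ≤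
    ((2 * (n - m)).totient : ℝ) *
      (((Lf (e + 1) (n - m)).totient : ℝ) / (Lf (e + 1) (n - m) : ℝ)) * ((H : ℝ) + N) ^ e := by
  classical
  set M := 2 * (n - m) with hM
  set r := n - m with hr
  have hr0 : 0 < r := by omega
  set L := Lf (e + 1) r with hL
  have hL0 : 0 < L := Lf_pos _ _
  haveI : NeZero L := ⟨hL0.ne'⟩
  have hLr : L ∣ r := Lf_dvd _ _
  have hLM : L ∣ M := hLr.mul_left 2
  have hLN : L ≤ N := (Nat.le_of_dvd hr0 hLr).trans (by omega)
  set f : ZMod M →+* ZMod L := ZMod.castHom hLM (ZMod L) with hf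
  set a : Fin e → ZMod L := fun i => 2 * (((m + r).choose (i + 2) : ℕ) : ZMod L) -
        2 * ((m.choose (i + 2) : ℕ) : ZMod L) with ha
  have hmr : m + r = n := by omega
  have hfδ : ∀ q : Fin e → ℕ, f ((al β q n : ZMod M) - (al β q m : ZMod M)) =
      ((β n : ZMod L) - (β m : ZMod L)) + ∑ i, ((q i : ℕ) : ZMod L) * a i := by
    intro q
    rw [map_sub, map_natCast, map_natCast, ha]
    unfold al Qv
    push_cast
    rw [hmr, mul_sum, mul_sum]
    have : ∑ i : Fin e, (q i : ZMod L) * (2 * ((n.choose (i + 2) : ℕ) : ZMod L) -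
        2 * ((m.choose (i + 2) : ℕ) : ZMod L)) =
        ∑ i : Fin e, 2 * ((q i : ZMod L) * ((n.choose (i + 2) : ℕ) : ZMod L)) -
        ∑ i : Fin e, 2 * ((q i : ZMod L) * ((m.choose (i + 2) : ℕ) : ZMod L)) := by
      rw [← sum_sub_distrib]
      exact sum_congr rfl fun i _ => by ring
    rw [this]
    ring
  obtain ⟨v0, hv0⟩ := exists_linear_one e m r hr0
  have hcount : ∀ b : ZMod M,
      (((box e H).filter (fun q => IsUnit (f b + f ((al β q n : ZMod M) - (al β q m : ZMod M))))).card : ℝ)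
        ≤ ((L.totient : ℝ) / (L : ℝ)) * ((H : ℝ) + N) ^ e := by
    intro b
    have h1 : (box e H).filter (fun q => IsUnit (f b + f ((al β q n : ZMod M) - (al β q m : ZMod M)))) =
        (Fintype.piFinset fun _ : Fin e => Icc 1 H).filter
          (fun q => (fun v : Fin e → ZMod L => IsUnit ((f b + ((β n : ZMod L) - (β m : ZMod L))) +
            ∑ i, v i * a i)) (fun i => ((q i : ℕ) : ZMod L))) := by
      unfold box
      refine filter_congr fun q _ => ?_
      rw [hfδ q, ← add_assoc]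
    rw [h1]
    have h2 := card_box_le (L := L) (e := e) H (fun v : Fin e → ZMod L =>
      IsUnit ((f b + ((β n : ZMod L) - (β m : ZMod L))) + ∑ i, v i * a i))
    have h3 := card_unit_vectors a ⟨v0, hv0⟩ (f b + ((β n : ZMod L) - (β m : ZMod L)))
    have h2' : ((((Fintype.piFinset fun _ : Fin e => Icc 1 H).filter
          (fun q => (fun v : Fin e → ZMod L => IsUnit ((f b + ((β n : ZMod L) - (β m : ZMod L))) +
            ∑ i, v i * a i)) (fun i => ((q i : ℕ) : ZMod L)))).card : ℕ) : ℝ) ≤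
        (((H / L + 1) ^ e * (univ.filter (fun v : Fin e → ZMod L =>
      IsUnit ((f b + ((β n : ZMod L) - (β m : ZMod L))) + ∑ i, v i * a i))).card : ℕ) : ℝ) := by
      exact_mod_cast h2
    refine h2'.trans ?_
    set A := (univ.filter (fun v : Fin e → ZMod L =>
      IsUnit ((f b + ((β n : ZMod L) - (β m : ZMod L))) + ∑ i, v i * a i))).card with hA
    have hLR : (0:ℝ) < L := by exact_mod_cast hL0
    have h4 : (A : ℝ) = (L:ℝ) ^ e * (L.totient / L) := by
      have : (L:ℝ) * A = (L:ℝ) ^ e * L.totient := by exact_mod_cast h3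
      field_simp
      linarith
    push_cast
    rw [h4]
    have h5 : (((H / L : ℕ) : ℝ) + 1) ^ e * (L:ℝ) ^ e ≤ ((H:ℝ) + N) ^ e := by
      rw [← mul_pow]
      refine pow_le_pow_left₀ (by positivity) ?_ e
      have h6 : ((H / L * L : ℕ) : ℝ) ≤ (H : ℝ) := by exact_mod_cast Nat.div_mul_le_self H L
      push_cast at h6
      have h7 : (L:ℝ) ≤ N := by exact_mod_cast hLN
      nlinarith
    have h8 : (0:ℝ) ≤ (L.totient : ℝ) / L := by positivity
    calc (((H / L : ℕ) : ℝ) + 1) ^ e * ((L:ℝ) ^ e * (L.totient / L))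
        = ((((H / L : ℕ) : ℝ) + 1) ^ e * (L:ℝ) ^ e) * (L.totient / L) := by ring
      _ ≤ ((H:ℝ) + N) ^ e * (L.totient / L) := mul_le_mul_of_nonneg_right h5 h8
      _ = _ := by ring
  have hrho : ∀ q ∈ box e H,
      (rho M ((al β q n : ZMod M) - (al β q m : ZMod M)) : ℝ) ≤
        ∑ b ∈ univ.filter (fun y : ZMod M => IsUnit y),
          (if IsUnit (f b + f ((al β q n : ZMod M) - (al β q m : ZMod M))) then (1:ℝ) else 0) := by
    intro q _
    rw [← sum_filter, sum_const, nsmul_eq_mul, mul_one]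
    unfold rho
    have : (univ.filter (fun b : ZMod M => IsUnit b ∧
        IsUnit (b + ((al β q n : ZMod M) - (al β q m : ZMod M))))).card ≤
        ((univ.filter (fun y : ZMod M => IsUnit y)).filter (fun b =>
          IsUnit (f b + f ((al β q n : ZMod M) - (al β q m : ZMod M))))).card := by
      refine card_le_card fun b hb => ?_
      simp only [mem_filter, mem_univ, true_and] at hb ⊢
      refine ⟨hb.1, ?_⟩
      rw [← map_add]
      exact hb.2.map f
    exact_mod_cast this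
  refine (sum_le_sum hrho).trans ?_
  rw [sum_comm]
  have hb : ∀ b ∈ univ.filter (fun y : ZMod M => IsUnit y),
      ∑ q ∈ box e H, (if IsUnit (f b + f ((al β q n : ZMod M) - (al β q m : ZMod M))) then (1:ℝ) else 0)
        ≤ ((L.totient : ℝ) / (L : ℝ)) * ((H : ℝ) + N) ^ e := by
    intro b _
    rw [← sum_filter, sum_const, nsmul_eq_mul, mul_one]
    exact hcount b
  refine (sum_le_sum hb).trans ?_
  rw [sum_const, card_units_filter, nsmul_eq_mul, mul_assoc]

section Env

variable {e H N X : ℕ} {E : ℝ} {β : ℕ → ℕ}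

/-- The combined pair bound. -/
lemma pair_total_le (hE : 0 ≤ E)
    (hSW : ∀ x : ℕ, x ≤ X → ∀ M : ℕ, 1 ≤ M → M ≤ 2 * N → ∀ a : ZMod M, IsUnit a →
      |th x M a - x / M.totient| ≤ E)
    {m n : ℕ} (hXm : ∀ q ∈ box e H, al β q m + 2 * (H + H * m) ≤ X)
    (hX : ∀ q ∈ box e H, al β q n + 2 * (H + H * n) ≤ X)
    (hβ : β n % 2 = 1) (hm : 1 ≤ m) (hmn : m < n) (hn : n ≤ N) :
    ∑ q ∈ box e H, ∑ c1 ∈ Ioc 0 H, ∑ c0 ∈ Ioc 0 H, w (uu β q c0 c1 m) * w (uu β q c0 c1 n) ≤
      2 * G (e + 1) (n - m) * (H * (2 * H + 4 * N * E) * ((H : ℝ) + N) ^ e) +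
      (H : ℝ) ^ (e + 1) * (2 * N * Real.log ((2 * N : ℕ) : ℝ) + 2 * E * (1 + N) * Real.log X) := by
  set M := 2 * (n - m) with hM
  have hM1 : 1 ≤ M := by omega
  haveI : NeZero M := ⟨by omega⟩
  have hphi : (0:ℝ) < M.totient := by exact_mod_cast Nat.totient_pos.mpr hM1
  have hphiM : (M.totient : ℝ) ≤ M := by exact_mod_cast Nat.totient_le M
  have hM2N : (M : ℝ) ≤ 2 * N := by
    have : M ≤ 2 * N := by omega
    exact_mod_cast this
  have hlogX : 0 ≤ Real.log X := Real.log_natCast_nonneg X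
  have hlogM : Real.log (M : ℝ) ≤ Real.log ((2 * N : ℕ) : ℝ) := by
    refine Real.log_le_log (by exact_mod_cast hM1) ?_
    push_cast
    exact hM2N
  have hlogM0 : 0 ≤ Real.log (M : ℝ) := Real.log_natCast_nonneg M
  set ρ : (Fin e → ℕ) → ℝ := fun q =>
    (rho M ((al β q n : ZMod M) - (al β q m : ZMod M)) : ℝ) with hρ
  have hstep : ∀ q ∈ box e H,
      ∑ c1 ∈ Ioc 0 H, ∑ c0 ∈ Ioc 0 H, w (uu β q c0 c1 m) * w (uu β q c0 c1 n) ≤
      (M : ℝ) / M.totient * (H * (ρ q * (2 * H / (M.totient : ℝ) + 2 * E) + Real.log (M : ℝ))) +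
        2 * E * (H * (1 + N)) * Real.log X := by
    intro q hq
    have h1 := pair_le (q := q) hE hSW (hXm q hq) (hX q hq) hβ hm hmn hn
    refine h1.trans ?_
    refine add_le_add ?_ ?_
    · refine mul_le_mul_of_nonneg_left ?_ (by positivity)
      have h2 : ∀ c1 ∈ Ioc 0 H, ∑ c0 ∈ Ioc 0 H,
          (if Nat.Coprime (al β q n + 2 * (c0 + c1 * m)) M then
            w (al β q m + 2 * (c0 + c1 * m)) else 0) ≤
          ρ q * (2 * H / (M.totient : ℝ) + 2 * E) + Real.log (M : ℝ) := by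
        intro c1 hc1
        rw [mem_Ioc] at hc1
        exact unit_sum_le hSW (hXm q hq) hmn hn hc1.2
      refine (sum_le_sum h2).trans ?_
      rw [sum_const, Nat.card_Ioc, nsmul_eq_mul]
      simp
    · refine mul_le_mul_of_nonneg_right ?_ hlogX
      refine mul_le_mul_of_nonneg_left ?_ (by positivity)
      have h3 : H + H * m ≤ H * (1 + N) := by
        have : H * m ≤ H * N := Nat.mul_le_mul_left H (by omega)
        nlinarith
      exact_mod_cast h3
  refine (sum_le_sum hstep).trans ?_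
  have hsumρ : ∑ q ∈ box e H, ρ q ≤ (M.totient : ℝ) *
      (((Lf (e + 1) (n - m)).totient : ℝ) / (Lf (e + 1) (n - m) : ℝ)) * ((H : ℝ) + N) ^ e :=
    sum_rho_le hmn hn
  have heq : ∑ q ∈ box e H, ((M : ℝ) / M.totient * (H * (ρ q * (2 * H / (M.totient : ℝ) + 2 * E) +
        Real.log (M : ℝ))) + 2 * E * (H * (1 + N)) * Real.log X) =
      (M : ℝ) / M.totient * H * (2 * H / (M.totient : ℝ) + 2 * E) * (∑ q ∈ box e H, ρ q) +
      (H:ℝ) ^ e * ((M : ℝ) / M.totient * H * Real.log (M : ℝ) +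
        2 * E * (H * (1 + N)) * Real.log X) := by
    rw [mul_sum]
    have : (H:ℝ) ^ e * ((M : ℝ) / M.totient * H * Real.log (M : ℝ) +
        2 * E * (H * (1 + N)) * Real.log X) = ∑ _q ∈ box e H,
        ((M : ℝ) / M.totient * H * Real.log (M : ℝ) +
        2 * E * (H * (1 + N)) * Real.log X) := by
      rw [sum_const, card_box, nsmul_eq_mul]
      push_cast
      ring
    rw [this, ← sum_add_distrib]
    exact sum_congr rfl fun q _ => by ring
  rw [heq]
  have hH0 : (0:ℝ) ≤ H := Nat.cast_nonneg H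
  refine add_le_add ?_ ?_
  · have hG := local_factor_le (e + 1) (n - m) (by omega)
    rw [← hM] at hG
    set ℓ : ℝ := ((Lf (e + 1) (n - m)).totient : ℝ) / (Lf (e + 1) (n - m) : ℝ) with hℓ
    have hℓ0 : 0 ≤ ℓ := by positivity
    have hc0 : 0 ≤ (M : ℝ) / M.totient * H * (2 * H / (M.totient : ℝ) + 2 * E) := by positivity
    refine (mul_le_mul_of_nonneg_left hsumρ hc0).trans ?_
    have e1 : (M : ℝ) / M.totient * H * (2 * H / (M.totient : ℝ) + 2 * E) *
        ((M.totient : ℝ) * ℓ * ((H : ℝ) + N) ^ e) =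
        ((M : ℝ) / M.totient * ℓ) * (H * (2 * H + 2 * M.totient * E) * ((H : ℝ) + N) ^ e) := by
      field_simp
    rw [e1]
    have hp0 : 0 ≤ (H:ℝ) * (2 * H + 2 * M.totient * E) * ((H : ℝ) + N) ^ e := by positivity
    refine (mul_le_mul_of_nonneg_right hG hp0).trans ?_
    have hG0 : 0 ≤ 2 * G (e + 1) (n - m) := by
      have := one_le_G (e + 1) (n - m); linarith
    refine mul_le_mul_of_nonneg_left ?_ hG0
    refine mul_le_mul_of_nonneg_right ?_ (by positivity)
    refine mul_le_mul_of_nonneg_left ?_ hH0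
    nlinarith
  · have hMφ : (M : ℝ) / M.totient ≤ 2 * N := by
      refine (div_le_self (by positivity) ?_).trans hM2N
      exact_mod_cast Nat.totient_pos.mpr hM1
    have e2 : (M : ℝ) / M.totient * H * Real.log (M : ℝ) ≤
        H * (2 * N * Real.log ((2 * N : ℕ) : ℝ)) := by
      have : (M : ℝ) / M.totient * Real.log (M : ℝ) ≤ 2 * N * Real.log ((2 * N : ℕ) : ℝ) :=
        mul_le_mul hMφ hlogM hlogM0 (by positivity)
      nlinarith
    calc (H:ℝ) ^ e * ((M : ℝ) / M.totient * H * Real.log (M : ℝ) +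
        2 * E * (H * (1 + N)) * Real.log X) ≤
        (H:ℝ) ^ e * (H * (2 * N * Real.log ((2 * N : ℕ) : ℝ)) +
        2 * E * (H * (1 + N)) * Real.log X) := by
          refine mul_le_mul_of_nonneg_left ?_ (by positivity)
          linarith
      _ = _ := by ring

end Env

end Pool.Agent.PnPoly
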